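import Pool.Agent.Lib.MP_ed6e5c_nt.ClassLemma

set_option autoImplicit false

namespace Pool.Agent.Lib.MP_ed6e5c_nt

namespace Par

variable (P : Par)

/-- The hypothesis on classes needed by the Cantor construction. -/
theorem class_lemma {x : ℝ} (hF : P.F x) {n u w s : ℕ} (hw : w ≤ n)
    (hcond : w = 0 ∨ (w : ℝ) ≤ P.k * ((u : ℝ) * (1 + P.k) - n - P.g))
    (hdisj : ∀ m < n - w, ∀ u0, Disjoint (J P.R (n - w) s) (P.E x m u0)) :
    ∃ y0 : ℝ, ∀ y ∈ P.E x n u, y ∈ J P.R (n - w) s →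
        y0 - 1 / (P.R : ℝ) ^ (n + 1) ≤ y ∧ y ≤ y0 + 1 / (P.R : ℝ) ^ (n + 1) := by
  have hRp := P.R_pos
  have hR1 := P.R_one
  by_cases h : ∃ y ∈ P.E x n u, y ∈ J P.R (n - w) s
  · obtain ⟨y, ⟨d⟩, hy⟩ := h
    refine ⟨P.yL x u d.A d.B d.C, ?_⟩
    rintro y' ⟨d'⟩ hy'
    have hN : d.A * d'.p + d.B * d'.r + d.C * d'.q' = 0 := by
      rcases Nat.eq_zero_or_pos w with h0 | h0
      · subst h0
        apply P.near_same_line d d'
        simp only [J, Set.mem_Icc, Nat.sub_zero] at hy hy'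
        have h1 : ((s : ℝ) + 1) / (P.R : ℝ) ^ n = (s : ℝ) / (P.R : ℝ) ^ n + 1 / (P.R : ℝ) ^ n := by
          ring
        rw [h1] at hy hy'
        rw [abs_le]
        constructor <;> linarith [hy.1, hy.2, hy'.1, hy'.2]
      · rcases hcond with h1 | h1
        · omega
        · exact P.no_two_lines hF hw h0 h1 hdisj d d' hy hy'
    have h1 := P.point_near d'
    have h2 : |(d'.r : ℝ) / d'.q - P.yL x u d.A d.B d.C| ≤ 1 / 16 * (1 / (P.R : ℝ) ^ (n + 1)) := by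
      apply P.line_near d'.hq1 d'.hqq d'.hx hN d.hA d.hB0
      calc (P.R : ℝ) ^ n ≤ 8 * (P.R : ℝ) ^ 2 * d.q * |(d.B : ℝ)| := d.hn1
        _ ≤ 8 * (P.R : ℝ) ^ 2 * (P.R * d'.q) * |(d.B : ℝ)| := by
            gcongr
            calc (d.q : ℝ) ≤ (P.R : ℝ) ^ (u + 1) := d.hq2.le
              _ = P.R * (P.R : ℝ) ^ u := pow_succ' _ _
              _ ≤ P.R * d'.q := by gcongr; exact d'.hq1
        _ = _ := by ring
    have h3 := abs_sub_le y' ((d'.r : ℝ) / d'.q) (P.yL x u d.A d.B d.C)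
    have h4 : 0 < 1 / (P.R : ℝ) ^ (n + 1) := by positivity
    have h5 : |y' - P.yL x u d.A d.B d.C| ≤ 1 / (P.R : ℝ) ^ (n + 1) := by linarith
    rw [abs_le] at h5
    constructor <;> linarith [h5.1, h5.2]
  · refine ⟨0, ?_⟩
    intro y hy1 hy2
    exact absurd ⟨y, hy1, hy2⟩ h

open Classical in
/-- relevant values of `u` for given `n` -/
noncomputable def U0 (n : ℕ) : Finset ℕ :=
  (Finset.range n).filter (fun u => (n : ℝ) ≤ 5 + (u : ℝ) * (1 + P.k))

theorem mem_U0 {x : ℝ} {n u : ℕ} {y : ℝ} (d : P.Data x n u y) : u ∈ P.U0 n := by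
  have hRp := P.R_pos
  have hR1 := P.R_one
  have hR64 := P.R_ge
  have hR1' : (1 : ℝ) < P.R := by linarith
  have hB1 : (1 : ℝ) ≤ |(d.B : ℝ)| := by
    rw [← Int.cast_abs]
    have := Int.one_le_abs d.hB0
    exact_mod_cast this
  unfold U0
  rw [Finset.mem_filter, Finset.mem_range]
  constructor
  · have h1 : (P.R : ℝ) ^ (u + 2) < (P.R : ℝ) ^ (n + 1) := by
      refine lt_of_le_of_lt ?_ d.hn2
      calc (P.R : ℝ) ^ (u + 2) = 1 * (P.R : ℝ) ^ 2 * (P.R : ℝ) ^ u * 1 := by ring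
        _ ≤ 8 * (P.R : ℝ) ^ 2 * d.q * |(d.B : ℝ)| := by
            gcongr
            · norm_num
            · exact d.hq1
    have h2 := (pow_lt_pow_iff_right₀ hR1').mp h1
    omega
  · have h1 : (P.R : ℝ) ^ (n : ℝ) ≤ (P.R : ℝ) ^ (5 + (u : ℝ) * (1 + P.k)) := by
      rw [← P.rpow_nat]
      refine d.hn1.trans ?_
      calc 8 * (P.R : ℝ) ^ 2 * d.q * |(d.B : ℝ)| ≤ 8 * (P.R : ℝ) ^ 2 * (P.R : ℝ) ^ (u + 1) *
            (2 * (P.R : ℝ) ^ ((u : ℝ) * P.k + 1)) := by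
            gcongr
            · exact d.hq2.le
            · exact d.hB
        _ = 16 * ((P.R : ℝ) ^ (2 : ℕ) * (P.R : ℝ) ^ (u + 1) * (P.R : ℝ) ^ ((u : ℝ) * P.k + 1)) := by
            ring
        _ ≤ P.R * ((P.R : ℝ) ^ (2 : ℕ) * (P.R : ℝ) ^ (u + 1) *
              (P.R : ℝ) ^ ((u : ℝ) * P.k + 1)) := by
            gcongr; linarith
        _ = (P.R : ℝ) ^ (5 + (u : ℝ) * (1 + P.k)) := by
            rw [P.rpow_nat 2, P.rpow_nat (u + 1), ← Real.rpow_add hRp, ← Real.rpow_add hRp]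
            nth_rewrite 1 [← Real.rpow_one (P.R : ℝ)]
            rw [← Real.rpow_add hRp]
            congr 1
            push_cast
            ring
    exact (Real.rpow_le_rpow_left_iff hR1').mp h1

/-- threshold for `u` -/
noncomputable def u1 (n : ℕ) : ℕ := ⌈((n : ℝ) + P.g) / (1 + P.k)⌉₊

theorem w_cond (K : ℕ) (hKk : 1 ≤ (K : ℝ) * P.k) (n u : ℕ) :
    (u - P.u1 n) / K = 0 ∨
      (((u - P.u1 n) / K : ℕ) : ℝ) ≤ P.k * ((u : ℝ) * (1 + P.k) - n - P.g) := by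
  have hk := P.hk
  rcases Nat.eq_zero_or_pos ((u - P.u1 n) / K) with h | h
  · left; exact h
  right
  have hle : P.u1 n ≤ u := by
    by_contra hcon
    push Not at hcon
    have : u - P.u1 n = 0 := by omega
    rw [this] at h; simp at h
  have h1 : ((n : ℝ) + P.g) / (1 + P.k) ≤ P.u1 n := Nat.le_ceil _
  rw [div_le_iff₀ (by linarith)] at h1
  set h' := u - P.u1 n with hh'
  have h2 : (u : ℝ) = P.u1 n + h' := by
    have : u = P.u1 n + h' := by omega
    exact_mod_cast this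
  have h3 : ((h' / K : ℕ) : ℝ) * K ≤ h' := by exact_mod_cast Nat.div_mul_le_self h' K
  have h4 : ((h' / K : ℕ) : ℝ) ≤ P.k * h' := by
    have h5 : (0 : ℝ) ≤ ((h' / K : ℕ) : ℝ) := by positivity
    have h6 : ((h' / K : ℕ) : ℝ) * 1 ≤ ((h' / K : ℕ) : ℝ) * (K * P.k) := by gcongr
    have h7 : ((h' / K : ℕ) : ℝ) * K * P.k ≤ h' * P.k := by gcongr
    linarith
  refine h4.trans ?_
  have h8 : (h' : ℝ) ≤ (u : ℝ) * (1 + P.k) - n - P.g := by
    rw [h2]
    have : (0 : ℝ) ≤ h' * P.k := by positivity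
    linarith
  gcongr

end Par

theorem geo_sum (N : ℕ) : ∑ s ∈ Finset.range N, (1 / 4 : ℝ) ^ s ≤ 2 := by
  have h : ∑ s ∈ Finset.range N, (1 / 4 : ℝ) ^ s + (1 / 4) ^ N * (4 / 3) = 4 / 3 := by
    induction N with
    | zero => simp
    | succ N ih => rw [Finset.sum_range_succ, pow_succ]; linarith
  have h2 : (0 : ℝ) ≤ (1 / 4) ^ N := by positivity
  linarith

theorem geo_div_sum (K : ℕ) (hK : 0 < K) (N : ℕ) :
    ∑ h ∈ Finset.range N, (1 / 4 : ℝ) ^ (h / K) ≤ 2 * K := by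
  have h1 : ∀ N, ∑ h ∈ Finset.range (K * N), (1 / 4 : ℝ) ^ (h / K) =
      K * ∑ s ∈ Finset.range N, (1 / 4 : ℝ) ^ s := by
    intro N
    induction N with
    | zero => simp
    | succ N ih =>
      rw [Nat.mul_succ, Finset.sum_range_add, ih, Finset.sum_range_succ, mul_add]
      congr 1
      have : ∀ t ∈ Finset.range K, (1 / 4 : ℝ) ^ ((K * N + t) / K) = (1 / 4 : ℝ) ^ N := by
        intro t ht
        rw [Finset.mem_range] at ht
        rw [Nat.mul_add_div hK, Nat.div_eq_of_lt ht, add_zero]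
      rw [Finset.sum_congr rfl this]
      simp
  have h2 : Finset.range N ⊆ Finset.range (K * N) := by
    intro a ha
    rw [Finset.mem_range] at ha ⊢
    nlinarith
  calc ∑ h ∈ Finset.range N, (1 / 4 : ℝ) ^ (h / K)
      ≤ ∑ h ∈ Finset.range (K * N), (1 / 4 : ℝ) ^ (h / K) :=
        Finset.sum_le_sum_of_subset_of_nonneg h2 (fun _ _ _ => by positivity)
    _ = K * ∑ s ∈ Finset.range N, (1 / 4 : ℝ) ^ s := h1 N
    _ ≤ K * 2 := by gcongr; exact geo_sum N
    _ = 2 * K := by ring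

theorem Par.sum_le (P : Par) (K : ℕ) (hK : 0 < K) (n : ℕ) :
    ∑ u ∈ P.U0 n, (2 / (P.R : ℝ)) ^ ((u - P.u1 n) / K) ≤ P.g + 6 + 2 * K := by
  classical
  have hRp := P.R_pos
  have hR64 := P.R_ge
  have hk := P.hk
  have hg : (0 : ℝ) ≤ P.g := by positivity
  have h0 : (2 / (P.R : ℝ)) ≤ 1 / 4 := by
    rw [div_le_div_iff₀ hRp (by norm_num)]; linarith
  have h1 : ∑ u ∈ P.U0 n, (2 / (P.R : ℝ)) ^ ((u - P.u1 n) / K) ≤
      ∑ u ∈ P.U0 n, (1 / 4 : ℝ) ^ ((u - P.u1 n) / K) := by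
    apply Finset.sum_le_sum
    intro u _
    gcongr
  refine h1.trans ?_
  rw [← Finset.sum_filter_add_sum_filter_not (P.U0 n) (fun u => u < P.u1 n)]
  have h2 : ∑ u ∈ (P.U0 n).filter (fun u => u < P.u1 n), (1 / 4 : ℝ) ^ ((u - P.u1 n) / K) ≤
      P.g + 6 := by
    have h3 : ∑ u ∈ (P.U0 n).filter (fun u => u < P.u1 n), (1 / 4 : ℝ) ^ ((u - P.u1 n) / K) ≤
        ∑ u ∈ (P.U0 n).filter (fun u => u < P.u1 n), 1 := by
      apply Finset.sum_le_sum
      intro u _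
      apply pow_le_one₀ <;> norm_num
    refine h3.trans ?_
    rw [Finset.sum_const, nsmul_eq_mul, mul_one]
    set a := ⌈((n : ℝ) - 5) / (1 + P.k)⌉₊ with ha
    have h4 : (P.U0 n).filter (fun u => u < P.u1 n) ⊆ Finset.Ico a (P.u1 n) := by
      intro u hu
      rw [Finset.mem_filter] at hu
      have hu1 := hu.1
      unfold Par.U0 at hu1
      rw [Finset.mem_filter] at hu1
      rw [Finset.mem_Ico]
      refine ⟨?_, hu.2⟩
      rw [ha, Nat.ceil_le, div_le_iff₀ (by linarith)]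
      linarith [hu1.2]
    have h5 : (((P.U0 n).filter (fun u => u < P.u1 n)).card : ℝ) ≤ ((P.u1 n - a : ℕ) : ℝ) := by
      have := Finset.card_le_card h4
      rw [Nat.card_Ico] at this
      exact_mod_cast this
    refine h5.trans ?_
    rcases Nat.le_total a (P.u1 n) with h6 | h6
    · rw [Nat.cast_sub h6]
      have h7 : (P.u1 n : ℝ) < ((n : ℝ) + P.g) / (1 + P.k) + 1 :=
        Nat.ceil_lt_add_one (by positivity)
      have h8 : ((n : ℝ) - 5) / (1 + P.k) ≤ a := Nat.le_ceil _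
      have h9 : ((n : ℝ) + P.g) / (1 + P.k) = ((n : ℝ) - 5) / (1 + P.k) +
          (P.g + 5) / (1 + P.k) := by ring
      have h10 : ((P.g : ℝ) + 5) / (1 + P.k) ≤ P.g + 5 := by
        rw [div_le_iff₀ (by linarith)]
        nlinarith
      linarith
    · rw [Nat.sub_eq_zero_of_le h6]; simp; positivity
  have h3 : ∑ u ∈ (P.U0 n).filter (fun u => ¬ u < P.u1 n), (1 / 4 : ℝ) ^ ((u - P.u1 n) / K) ≤
      2 * K := by
    have h4 : ∑ u ∈ (P.U0 n).filter (fun u => ¬ u < P.u1 n), (1 / 4 : ℝ) ^ ((u - P.u1 n) / K) ≤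
        ∑ u ∈ Finset.Ico (P.u1 n) n, (1 / 4 : ℝ) ^ ((u - P.u1 n) / K) := by
      apply Finset.sum_le_sum_of_subset_of_nonneg
      · intro u hu
        rw [Finset.mem_filter] at hu
        have hu1 := hu.1
        unfold Par.U0 at hu1
        rw [Finset.mem_filter, Finset.mem_range] at hu1
        rw [Finset.mem_Ico]
        exact ⟨not_lt.mp hu.2, hu1.1⟩
      · intro _ _ _; positivity
    refine h4.trans ?_
    rw [Finset.sum_Ico_eq_sum_range]
    refine le_trans (le_of_eq ?_) (geo_div_sum K hK (n - P.u1 n))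
    apply Finset.sum_congr rfl
    intro t _
    rw [Nat.add_sub_cancel_left]
  linarith

end Pool.Agent.Lib.MP_ed6e5c_nt
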