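import Mathlib

set_option autoImplicit false

namespace Pool.Agent.Lib.MP_ed6e5c_nt

/-- The closed interval of level `n` and index `s`: it has length `R ^ (-n)`. -/
def J (R n s : ℕ) : Set ℝ := Set.Icc ((s : ℝ) / (R : ℝ) ^ n) (((s : ℝ) + 1) / (R : ℝ) ^ n)

open Classical in
/-- Indices of surviving intervals. -/
noncomputable def surv (R : ℕ) {α : Type} (U : ℕ → Finset α) (E : ℕ → α → Set ℝ) :
    ℕ → Finset ℕ
  | 0 => {0}
  | n + 1 => (Finset.range (R ^ (n + 1))).filter
      (fun s => s / R ∈ surv R U E n ∧ ∀ a ∈ U n, Disjoint (J R (n + 1) s) (E n a))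

theorem J_subset (R n s : ℕ) (hR : 0 < R) : J R (n + 1) s ⊆ J R n (s / R) := by
  intro y hy
  simp only [J, Set.mem_Icc] at hy ⊢
  have hRr : (0 : ℝ) < R := by exact_mod_cast hR
  have hpos : (0 : ℝ) < (R : ℝ) ^ n := pow_pos hRr n
  have h1 : ((s / R : ℕ) : ℝ) * R ≤ s := by
    exact_mod_cast Nat.div_mul_le_self s R
  have h2 : (s : ℝ) + 1 ≤ (((s / R : ℕ) : ℝ) + 1) * R := by
    have h3 : s + 1 ≤ (s / R + 1) * R := by
      have h4 := Nat.div_add_mod s R
      have h5 := Nat.mod_lt s hR
      nlinarith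
    exact_mod_cast h3
  constructor
  · refine le_trans ?_ hy.1
    rw [pow_succ, div_le_div_iff₀ hpos (by positivity)]
    nlinarith
  · refine le_trans hy.2 ?_
    rw [pow_succ, div_le_div_iff₀ (by positivity) hpos]
    nlinarith

theorem J_subset_anc (R n w s : ℕ) (hR : 0 < R) : J R (n + w) s ⊆ J R n (s / R ^ w) := by
  induction w generalizing s with
  | zero => simp
  | succ w ih =>
    have h1 := J_subset R (n + w) s hR
    have h2 := ih (s / R)
    rw [Nat.div_div_eq_div_mul] at h2
    rw [pow_succ']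
    exact h1.trans h2

section

variable {R : ℕ} {α : Type} {U : ℕ → Finset α} {E : ℕ → α → Set ℝ}

theorem surv_lt {n s : ℕ} (h : s ∈ surv R U E n) : s < R ^ n := by
  cases n with
  | zero => simp [surv] at h; simp [h]
  | succ n => simp only [surv, Finset.mem_filter, Finset.mem_range] at h; exact h.1

theorem surv_succ {n s : ℕ} (h : s ∈ surv R U E (n + 1)) : s / R ∈ surv R U E n := by
  simp only [surv, Finset.mem_filter, Finset.mem_range] at h; exact h.2.1

theorem surv_anc {n s : ℕ} (w : ℕ) (h : s ∈ surv R U E (n + w)) : s / R ^ w ∈ surv R U E n := by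
  induction w generalizing s with
  | zero => simpa using h
  | succ w ih =>
    have h2 := ih (surv_succ (n := n + w) h)
    rw [Nat.div_div_eq_div_mul, ← pow_succ'] at h2
    exact h2

theorem surv_disj (hR : 0 < R) {n s : ℕ} (h : s ∈ surv R U E n) :
    ∀ m < n, ∀ b ∈ U m, Disjoint (J R n s) (E m b) := by
  induction n generalizing s with
  | zero => intro m hm; omega
  | succ n ih =>
    intro m hm b hb
    rcases Nat.lt_succ_iff_lt_or_eq.mp hm with h1 | h1
    · exact (ih (surv_succ h) m h1 b hb).mono_left (J_subset R n s hR)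
    · subst h1
      simp only [surv, Finset.mem_filter, Finset.mem_range] at h
      exact h.2.2 b hb

theorem fiber_card {N : ℕ} (hN : 0 < N) (y0 : ℝ) (S : Finset ℕ)
    (hS : ∀ s ∈ S, ∃ y : ℝ, (s : ℝ) / N ≤ y ∧ y ≤ ((s : ℝ) + 1) / N ∧
      y0 - 1 / N ≤ y ∧ y ≤ y0 + 1 / N) : S.card ≤ 4 := by
  have hNr : (0 : ℝ) < N := by exact_mod_cast hN
  have hsub : S ⊆ Finset.Icc ⌈(N : ℝ) * y0 - 2⌉₊ (⌈(N : ℝ) * y0 - 2⌉₊ + 3) := by
    intro s hs
    obtain ⟨y, h1, h2, h3, h4⟩ := hS s hs
    rw [div_le_iff₀ hNr] at h1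
    rw [le_div_iff₀ hNr] at h2
    have h5 : (N : ℝ) * y0 - 1 ≤ y * N := by
      have := mul_le_mul_of_nonneg_right h3 hNr.le
      have e : (y0 - 1 / (N:ℝ)) * N = N * y0 - 1 := by field_simp
      linarith
    have h6 : y * N ≤ (N : ℝ) * y0 + 1 := by
      have := mul_le_mul_of_nonneg_right h4 hNr.le
      have e : (y0 + 1 / (N:ℝ)) * N = N * y0 + 1 := by field_simp
      linarith
    rw [Finset.mem_Icc]
    constructor
    · rw [Nat.ceil_le]; linarith
    · have h7 : (s : ℝ) ≤ (⌈(N : ℝ) * y0 - 2⌉₊ : ℝ) + 3 := by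
        have := Nat.le_ceil ((N : ℝ) * y0 - 2)
        linarith
      exact_mod_cast h7
  calc S.card ≤ _ := Finset.card_le_card hsub
    _ = 4 := by rw [Nat.card_Icc]; omega

theorem children_card (hR : 0 < R) (n : ℕ) :
    (surv R U E n).card * R ≤
      ((Finset.range (R ^ (n + 1))).filter (fun s => s / R ∈ surv R U E n)).card := by
  have : (surv R U E n).card * R = (surv R U E n ×ˢ Finset.range R).card := by
    simp
  rw [this]
  apply Finset.card_le_card_of_injOn (fun p => p.1 * R + p.2)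
  · intro p hp
    simp only [Finset.coe_product, Set.mem_prod, Finset.mem_coe, Finset.mem_range] at hp
    rw [Finset.mem_coe, Finset.mem_filter, Finset.mem_range]
    have h1 := surv_lt hp.1
    have h2 : (p.1 * R + p.2) / R = p.1 := by
      rw [mul_comm, Nat.mul_add_div hR, Nat.div_eq_of_lt hp.2, add_zero]
    refine ⟨?_, ?_⟩
    · rw [pow_succ]
      have : (p.1 + 1) * R ≤ R ^ n * R := Nat.mul_le_mul_right R h1
      nlinarith [hp.2]
    · rw [h2]; exact hp.1
  · intro p hp p' hp' h
    simp only [Finset.coe_product, Set.mem_prod, Finset.mem_coe, Finset.mem_range] at hp hp'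
    have h' : p.1 * R + p.2 = p'.1 * R + p'.2 := h
    have h2 : (p.1 * R + p.2) / R = p.1 := by
      rw [mul_comm, Nat.mul_add_div hR, Nat.div_eq_of_lt hp.2, add_zero]
    have h3 : (p'.1 * R + p'.2) / R = p'.1 := by
      rw [mul_comm, Nat.mul_add_div hR, Nat.div_eq_of_lt hp'.2, add_zero]
    have h4 : p.1 = p'.1 := by rw [← h2, ← h3, h']
    have h5 : p.2 = p'.2 := by rw [h4] at h'; omega
    exact Prod.ext h4 h5

/-- Counting step. -/
theorem count_step (hR : 0 < R) (w : ℕ → α → ℕ)
    (hw : ∀ n, ∀ a ∈ U n, w n a ≤ n)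
    (hE : ∀ n, ∀ a ∈ U n, ∀ s : ℕ,
      (∀ m < n - w n a, ∀ b ∈ U m, Disjoint (J R (n - w n a) s) (E m b)) →
      ∃ y0 : ℝ, ∀ y ∈ E n a, y ∈ J R (n - w n a) s →
        y0 - 1 / (R : ℝ) ^ (n + 1) ≤ y ∧ y ≤ y0 + 1 / (R : ℝ) ^ (n + 1)) (n : ℕ) :
    (surv R U E n).card * R ≤
      (surv R U E (n + 1)).card + ∑ a ∈ U n, 4 * (surv R U E (n - w n a)).card := by
  classical
  refine (children_card (U := U) (E := E) hR n).trans ?_
  set ch := (Finset.range (R ^ (n + 1))).filter (fun s => s / R ∈ surv R U E n) with hch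
  let bad : α → Finset ℕ := fun a => ch.filter (fun s => ¬ Disjoint (J R (n + 1) s) (E n a))
  have hsub : ch ⊆ surv R U E (n + 1) ∪ (U n).biUnion bad := by
    intro s hs
    by_cases h : ∀ a ∈ U n, Disjoint (J R (n + 1) s) (E n a)
    · apply Finset.mem_union_left
      simp only [hch, Finset.mem_filter] at hs
      simp only [surv, Finset.mem_filter]
      exact ⟨hs.1, hs.2, h⟩
    · push Not at h
      obtain ⟨a, ha, h2⟩ := h
      apply Finset.mem_union_right
      rw [Finset.mem_biUnion]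
      exact ⟨a, ha, by simp only [bad, Finset.mem_filter]; exact ⟨hs, h2⟩⟩
  have hbad : ∀ a ∈ U n, (bad a).card ≤ 4 * (surv R U E (n - w n a)).card := by
    intro a ha
    have hwa := hw n a ha
    have hn : n - w n a + (w n a + 1) = n + 1 := by omega
    apply Finset.card_le_mul_card_image_of_maps_to (f := fun s => s / R ^ (w n a + 1))
    · intro s hs
      simp only [bad, hch, Finset.mem_filter] at hs
      have h1 := surv_anc (R := R) (U := U) (E := E) (n := n - w n a) (s := s / R) (w n a)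
        (by rw [Nat.sub_add_cancel hwa]; exact hs.1.2)
      rw [Nat.div_div_eq_div_mul, ← pow_succ'] at h1
      exact h1
    · intro b hb
      obtain ⟨y0, hy0⟩ := hE n a ha b (surv_disj hR hb)
      apply fiber_card (N := R ^ (n + 1)) (by positivity) y0
      intro s hs
      simp only [bad, Finset.mem_filter] at hs
      obtain ⟨⟨_, h2⟩, h3⟩ := hs
      rw [Set.not_disjoint_iff] at h2
      obtain ⟨y, hy1, hy2⟩ := h2
      have h4 : y ∈ J R (n - w n a) b := by
        rw [← h3]
        apply J_subset_anc R (n - w n a) (w n a + 1) s hR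
        rw [hn]; exact hy1
      have h5 := hy0 y hy2 h4
      simp only [J, Set.mem_Icc] at hy1
      refine ⟨y, ?_, ?_, ?_, ?_⟩
      · push_cast; exact hy1.1
      · push_cast; exact hy1.2
      · push_cast; exact h5.1
      · push_cast; exact h5.2
  calc ch.card ≤ (surv R U E (n + 1) ∪ (U n).biUnion bad).card := Finset.card_le_card hsub
    _ ≤ (surv R U E (n + 1)).card + ((U n).biUnion bad).card := Finset.card_union_le _ _
    _ ≤ (surv R U E (n + 1)).card + ∑ a ∈ U n, (bad a).card := by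
        gcongr; exact Finset.card_biUnion_le
    _ ≤ _ := by
        gcongr with a ha
        exact hbad a ha

/-- Abstract Cantor-type construction. -/
theorem cantor (hR : 4 ≤ R) (w : ℕ → α → ℕ)
    (hw : ∀ n, ∀ a ∈ U n, w n a ≤ n)
    (hE : ∀ n, ∀ a ∈ U n, ∀ s : ℕ,
      (∀ m < n - w n a, ∀ b ∈ U m, Disjoint (J R (n - w n a) s) (E m b)) →
      ∃ y0 : ℝ, ∀ y ∈ E n a, y ∈ J R (n - w n a) s →
        y0 - 1 / (R : ℝ) ^ (n + 1) ≤ y ∧ y ≤ y0 + 1 / (R : ℝ) ^ (n + 1))
    (hsum : ∀ n, ∑ a ∈ U n, (2 / (R : ℝ)) ^ (w n a) ≤ R / 8) :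
    ∃ y : ℝ, 0 ≤ y ∧ y ≤ 1 ∧ ∀ n, ∀ a ∈ U n, y ∉ E n a := by
  have hR0 : 0 < R := by omega
  have hRr : (0 : ℝ) < R := by exact_mod_cast hR0
  -- growth
  have hgrow : ∀ n, ∀ m ≤ n, ((R : ℝ) / 2) ^ (n - m) * (surv R U E m).card ≤
      (surv R U E n).card := by
    intro n
    induction n with
    | zero => intro m hm; interval_cases m; simp
    | succ n ih =>
      have key : ((R : ℝ) / 2) * (surv R U E n).card ≤ (surv R U E (n + 1)).card := by
        have h1 := count_step hR0 w hw hE n
        have h1' : ((surv R U E n).card : ℝ) * R ≤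
          (surv R U E (n + 1)).card + ∑ a ∈ U n, 4 * ((surv R U E (n - w n a)).card : ℝ) := by
          exact_mod_cast h1
        have h2 : ∑ a ∈ U n, 4 * ((surv R U E (n - w n a)).card : ℝ) ≤
            ∑ a ∈ U n, 4 * ((2 / (R : ℝ)) ^ (w n a) * (surv R U E n).card) := by
          apply Finset.sum_le_sum
          intro a ha
          have h3 := ih (n - w n a) (Nat.sub_le _ _)
          have h4 : n - (n - w n a) = w n a := by have := hw n a ha; omega
          rw [h4] at h3
          have h5 : (2 / (R : ℝ)) ^ (w n a) * (((R : ℝ) / 2) ^ (w n a) *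
              (surv R U E (n - w n a)).card) = (surv R U E (n - w n a)).card := by
            rw [← mul_assoc, ← mul_pow]
            have : (2 / (R : ℝ)) * ((R : ℝ) / 2) = 1 := by field_simp
            rw [this]; simp
          have h6 : (0 : ℝ) ≤ (2 / (R : ℝ)) ^ (w n a) := by positivity
          have h7 := mul_le_mul_of_nonneg_left h3 h6
          rw [h5] at h7
          linarith
        have h3 : ∑ a ∈ U n, 4 * ((2 / (R : ℝ)) ^ (w n a) * (surv R U E n).card) =
            4 * (∑ a ∈ U n, (2 / (R : ℝ)) ^ (w n a)) * (surv R U E n).card := by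
          rw [Finset.mul_sum, Finset.sum_mul]
          apply Finset.sum_congr rfl
          intro a _; ring
        have h4 := hsum n
        have h5 : (0 : ℝ) ≤ (surv R U E n).card := by positivity
        nlinarith
      intro m hm
      rcases Nat.le_succ_iff.mp hm with h | h
      · have h1 := ih m h
        have h2 : n + 1 - m = (n - m) + 1 := by omega
        rw [h2, pow_succ]
        have h3 : (0 : ℝ) < (R : ℝ) / 2 := by positivity
        calc ((R : ℝ) / 2) ^ (n - m) * ((R : ℝ) / 2) * (surv R U E m).card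
            = ((R : ℝ) / 2) * (((R : ℝ) / 2) ^ (n - m) * (surv R U E m).card) := by ring
          _ ≤ ((R : ℝ) / 2) * (surv R U E n).card := by gcongr
          _ ≤ _ := key
      · subst h; simp
  have hne : ∀ n, (surv R U E n).Nonempty := by
    intro n
    have h1 := hgrow n 0 (Nat.zero_le _)
    simp only [surv, Finset.card_singleton, Nat.cast_one, mul_one] at h1
    rw [← Finset.card_pos]
    have h2 : (0 : ℝ) < ((R : ℝ) / 2) ^ (n - 0) := by positivity
    have h3 : (0 : ℝ) < (surv R U E n).card := lt_of_lt_of_le h2 h1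
    exact_mod_cast h3
  -- compactness
  let K : ℕ → Set ℝ := fun n => ⋃ s ∈ surv R U E n, J R n s
  have hKc : ∀ n, IsCompact (K n) := by
    intro n
    apply Finset.isCompact_biUnion
    intro s _
    exact isCompact_Icc
  have hKd : ∀ n, K (n + 1) ⊆ K n := by
    intro n y hy
    simp only [K, Set.mem_iUnion] at hy ⊢
    obtain ⟨s, hs, hy⟩ := hy
    exact ⟨s / R, surv_succ hs, J_subset R n s hR0 hy⟩
  have hKn : ∀ n, (K n).Nonempty := by
    intro n
    obtain ⟨s, hs⟩ := hne n
    refine ⟨(s : ℝ) / (R : ℝ) ^ n, ?_⟩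
    simp only [K, Set.mem_iUnion]
    refine ⟨s, hs, ?_⟩
    simp only [J, Set.mem_Icc]
    refine ⟨le_refl _, ?_⟩
    gcongr; linarith
  obtain ⟨y, hy⟩ := IsCompact.nonempty_iInter_of_sequence_nonempty_isCompact_isClosed K hKd hKn
    (hKc 0) (fun n => (hKc n).isClosed)
  rw [Set.mem_iInter] at hy
  have hy0 := hy 0
  simp only [K, surv, Finset.mem_singleton, Set.iUnion_iUnion_eq_left, J, pow_zero, div_one,
    Nat.cast_zero, zero_add, Set.mem_Icc] at hy0
  refine ⟨y, hy0.1, hy0.2, ?_⟩
  intro n a ha hya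
  have h1 := hy (n + 1)
  simp only [K, Set.mem_iUnion] at h1
  obtain ⟨s, hs, hys⟩ := h1
  have h2 := surv_disj hR0 hs n (Nat.lt_succ_self n) a ha
  exact Set.disjoint_left.mp h2 hys hya

end

end Pool.Agent.Lib.MP_ed6e5c_nt
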