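import Pool.Agent.Lib.MP_ed6e5c_nt.Assemble

set_option autoImplicit false

namespace Pool.Agent.Lib.MP_ed6e5c_nt

open MeasureTheory

theorem small_measure (N : ℕ) (hN : 1 ≤ N) (θ : ℝ) (hθ : 0 ≤ θ) :
    volume {x : ℝ | x ∈ Set.Icc (0 : ℝ) 1 ∧ ∃ p : ℤ, |(N : ℝ) * x - p| ≤ θ} ≤
      ENNReal.ofReal (4 * θ) := by
  have hNr : (1 : ℝ) ≤ N := by exact_mod_cast hN
  rcases le_or_gt (1 / 4) θ with h | h
  · calc volume {x : ℝ | x ∈ Set.Icc (0 : ℝ) 1 ∧ ∃ p : ℤ, |(N : ℝ) * x - p| ≤ θ}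
        ≤ volume (Set.Icc (0 : ℝ) 1) := measure_mono (fun x hx => hx.1)
      _ = ENNReal.ofReal 1 := by rw [Real.volume_Icc]; norm_num
      _ ≤ _ := ENNReal.ofReal_le_ofReal (by linarith)
  · have hsub : {x : ℝ | x ∈ Set.Icc (0 : ℝ) 1 ∧ ∃ p : ℤ, |(N : ℝ) * x - p| ≤ θ} ⊆
        ⋃ p ∈ Finset.range (N + 1), Set.Icc (((p : ℝ) - θ) / N) (((p : ℝ) + θ) / N) := by
      rintro x ⟨⟨hx0, hx1⟩, p, hp⟩
      rw [abs_le] at hp
      have hp0 : -1 < p := by
        have : (-1 : ℝ) < p := by nlinarith [hp.2]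
        exact_mod_cast this
      have hp1 : p < N + 1 := by
        have : (p : ℝ) < N + 1 := by nlinarith [hp.1]
        exact_mod_cast this
      lift p to ℕ using (by omega)
      rw [Set.mem_iUnion₂]
      refine ⟨p, by rw [Finset.mem_range]; omega, ?_⟩
      rw [Set.mem_Icc, div_le_iff₀ (by linarith), le_div_iff₀ (by linarith)]
      push_cast at hp
      constructor <;> linarith [hp.1, hp.2]
    calc volume {x : ℝ | x ∈ Set.Icc (0 : ℝ) 1 ∧ ∃ p : ℤ, |(N : ℝ) * x - p| ≤ θ}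
        ≤ volume (⋃ p ∈ Finset.range (N + 1), Set.Icc (((p : ℝ) - θ) / N) (((p : ℝ) + θ) / N)) :=
          measure_mono hsub
      _ ≤ ∑ p ∈ Finset.range (N + 1), volume (Set.Icc (((p : ℝ) - θ) / N) (((p : ℝ) + θ) / N)) :=
          measure_biUnion_finset_le _ _
      _ = ∑ p ∈ Finset.range (N + 1), ENNReal.ofReal (2 * θ / N) := by
          apply Finset.sum_congr rfl
          intro p _
          rw [Real.volume_Icc]
          congr 1; ring
      _ = ENNReal.ofReal (∑ p ∈ Finset.range (N + 1), 2 * θ / N) := by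
          rw [ENNReal.ofReal_sum_of_nonneg]
          intro p _; positivity
      _ ≤ ENNReal.ofReal (4 * θ) := by
          apply ENNReal.ofReal_le_ofReal
          rw [Finset.sum_const, Finset.card_range, nsmul_eq_mul]
          push_cast
          rw [← mul_div_assoc, div_le_iff₀ (by linarith)]
          nlinarith

namespace Par

variable (P : Par)

/-- bad set of `x` for given `u` -/
def badX (u : ℕ) : Set ℝ := {x : ℝ | x ∈ Set.Icc (0 : ℝ) 1 ∧ ∃ a : ℕ, 1 ≤ a ∧ (a : ℝ) ≤ P.X u ∧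
  ∃ p : ℤ, |(a : ℝ) * P.Du u * x - p| ≤
    (a : ℝ) * P.Du u * (P.R : ℝ) ^ (-(P.j * ((u : ℝ) + P.g)) - u)}

theorem sum_id_le (N : ℕ) : ∑ a ∈ Finset.Icc 1 N, (a : ℝ) ≤ (N : ℝ) ^ 2 := by
  calc ∑ a ∈ Finset.Icc 1 N, (a : ℝ) ≤ ∑ a ∈ Finset.Icc 1 N, (N : ℝ) := by
        apply Finset.sum_le_sum
        intro a ha
        rw [Finset.mem_Icc] at ha
        exact_mod_cast ha.2
    _ = (N : ℝ) ^ 2 := by
        rw [Finset.sum_const, Nat.card_Icc, nsmul_eq_mul]; push_cast; ring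

theorem badX_measure (hRk : 2 ≤ (P.R : ℝ) ^ P.k) (u : ℕ) :
    volume (P.badX u) ≤ ENNReal.ofReal ((P.R : ℝ) ^ (-4 : ℝ) * (1 / 2) ^ u) := by
  have hRp := P.R_pos
  have hDp := P.Du_pos u
  have hDnat : 0 < P.Du u := by exact_mod_cast hDp
  have hi := P.hi
  have hj := P.hj
  have hk := P.hk
  have hijk := P.hijk
  set τ : ℝ := (P.R : ℝ) ^ (-(P.j * ((u : ℝ) + P.g)) - u) with hτ
  have hτ0 : 0 < τ := P.rpow_pos _
  rcases P.hgk' with hk1 | hk1
  · have hi0 : P.i = 0 := by linarith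
    have hj0 : P.j = 0 := by linarith
    have hX : P.X u = 1 / 2 := by simp [X, hi0, hj0]
    have hempty : P.badX u = ∅ := by
      rw [Set.eq_empty_iff_forall_notMem]
      rintro x ⟨_, a, ha1, ha2, _⟩
      rw [hX] at ha2
      have : (1 : ℝ) ≤ a := by exact_mod_cast ha1
      linarith
    rw [hempty]; simp
  · have hX0 : 0 < P.X u := by unfold X; have := P.rpow_pos ((u : ℝ) * P.j - P.g * P.i); positivity
    have hsub : P.badX u ⊆ ⋃ a ∈ Finset.Icc 1 ⌊P.X u⌋₊, {x : ℝ | x ∈ Set.Icc (0 : ℝ) 1 ∧ ∃ p : ℤ,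
        |((a * P.Du u : ℕ) : ℝ) * x - p| ≤ (a : ℝ) * P.Du u * τ} := by
      rintro x ⟨hx, a, ha1, ha2, p, hp⟩
      rw [Set.mem_iUnion₂]
      refine ⟨a, ?_, hx, p, ?_⟩
      · rw [Finset.mem_Icc]; exact ⟨ha1, Nat.le_floor ha2⟩
      · push_cast; exact hp
    calc volume (P.badX u)
        ≤ volume (⋃ a ∈ Finset.Icc 1 ⌊P.X u⌋₊, {x : ℝ | x ∈ Set.Icc (0 : ℝ) 1 ∧ ∃ p : ℤ,
            |((a * P.Du u : ℕ) : ℝ) * x - p| ≤ (a : ℝ) * P.Du u * τ}) := measure_mono hsub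
      _ ≤ ∑ a ∈ Finset.Icc 1 ⌊P.X u⌋₊, volume {x : ℝ | x ∈ Set.Icc (0 : ℝ) 1 ∧ ∃ p : ℤ,
            |((a * P.Du u : ℕ) : ℝ) * x - p| ≤ (a : ℝ) * P.Du u * τ} :=
          measure_biUnion_finset_le _ _
      _ ≤ ∑ a ∈ Finset.Icc 1 ⌊P.X u⌋₊, ENNReal.ofReal (4 * ((a : ℝ) * P.Du u * τ)) := by
          apply Finset.sum_le_sum
          intro a ha
          rw [Finset.mem_Icc] at ha
          exact small_measure (a * P.Du u) (Nat.mul_pos ha.1 hDnat) _ (by positivity)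
      _ = ENNReal.ofReal (∑ a ∈ Finset.Icc 1 ⌊P.X u⌋₊, 4 * ((a : ℝ) * P.Du u * τ)) := by
          rw [ENNReal.ofReal_sum_of_nonneg]
          intro a _; positivity
      _ ≤ _ := by
          apply ENNReal.ofReal_le_ofReal
          have h1 : ∑ a ∈ Finset.Icc 1 ⌊P.X u⌋₊, 4 * ((a : ℝ) * P.Du u * τ) =
              4 * P.Du u * τ * ∑ a ∈ Finset.Icc 1 ⌊P.X u⌋₊, (a : ℝ) := by
            rw [Finset.mul_sum]; apply Finset.sum_congr rfl; intro a _; ring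
          rw [h1]
          have h2 : ∑ a ∈ Finset.Icc 1 ⌊P.X u⌋₊, (a : ℝ) ≤ P.X u ^ 2 := by
            refine (sum_id_le _).trans ?_
            gcongr
            exact Nat.floor_le hX0.le
          have h3 : (P.Du u : ℝ) ≤ (P.R : ℝ) ^ (1 + P.i * ((u : ℝ) + P.g)) := by
            rw [Real.rpow_add hRp, Real.rpow_one]; exact P.hD2 u
          calc 4 * P.Du u * τ * ∑ a ∈ Finset.Icc 1 ⌊P.X u⌋₊, (a : ℝ)
              ≤ 4 * (P.R : ℝ) ^ (1 + P.i * ((u : ℝ) + P.g)) * τ * (P.X u ^ 2) := by gcongr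
            _ = (P.R : ℝ) ^ (1 + P.i * ((u : ℝ) + P.g)) *
                (P.R : ℝ) ^ (-(P.j * ((u : ℝ) + P.g)) - u) *
                (P.R : ℝ) ^ ((u : ℝ) * P.j - P.g * P.i) *
                (P.R : ℝ) ^ ((u : ℝ) * P.j - P.g * P.i) := by
                rw [hτ]; unfold X; ring
            _ = (P.R : ℝ) ^ (1 + P.i * ((u : ℝ) + P.g) + (-(P.j * ((u : ℝ) + P.g)) - u) +
                ((u : ℝ) * P.j - P.g * P.i) + ((u : ℝ) * P.j - P.g * P.i)) := by
                rw [← Real.rpow_add hRp, ← Real.rpow_add hRp, ← Real.rpow_add hRp]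
            _ ≤ (P.R : ℝ) ^ (-4 + (-(P.k * u))) := by
                apply P.rpow_mono
                have e : P.i = 1 - P.j - P.k := by linarith
                rw [e]
                linarith
            _ = (P.R : ℝ) ^ (-4 : ℝ) * (((P.R : ℝ) ^ P.k)⁻¹) ^ u := by
                rw [Real.rpow_add hRp, Real.rpow_neg hRp.le (P.k * u), Real.rpow_mul hRp.le,
                  Real.rpow_natCast, inv_pow]
            _ ≤ (P.R : ℝ) ^ (-4 : ℝ) * (1 / 2) ^ u := by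
                have h4 : ((P.R : ℝ) ^ P.k)⁻¹ ≤ 1 / 2 := by
                  rw [one_div]
                  exact inv_anti₀ (by norm_num) hRk
                have h5 : 0 ≤ ((P.R : ℝ) ^ P.k)⁻¹ := by
                  have := P.rpow_pos P.k; positivity
                have := P.rpow_pos (-4 : ℝ)
                gcongr

theorem notF_measure (hRk : 2 ≤ (P.R : ℝ) ^ P.k) :
    volume {x : ℝ | x ∈ Set.Icc (0 : ℝ) 1 ∧ ¬ P.F x} ≤ ENNReal.ofReal (1 / 4) := by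
  have hsub : {x : ℝ | x ∈ Set.Icc (0 : ℝ) 1 ∧ ¬ P.F x} ⊆ ⋃ u, P.badX u := by
    rintro x ⟨hx, hF⟩
    unfold F at hF
    push Not at hF
    obtain ⟨u, a, ha1, ha2, p, hp⟩ := hF
    rw [Set.mem_iUnion]
    exact ⟨u, hx, a, ha1, ha2, p, hp⟩
  have hp := P.rpow_pos (-4 : ℝ)
  calc volume {x : ℝ | x ∈ Set.Icc (0 : ℝ) 1 ∧ ¬ P.F x}
      ≤ volume (⋃ u, P.badX u) := measure_mono hsub
    _ ≤ ∑' u, volume (P.badX u) := measure_iUnion_le _
    _ ≤ ∑' u : ℕ, ENNReal.ofReal ((P.R : ℝ) ^ (-4 : ℝ) * (1 / 2) ^ u) :=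
        ENNReal.tsum_le_tsum (fun u => P.badX_measure hRk u)
    _ = ENNReal.ofReal (∑' u : ℕ, (P.R : ℝ) ^ (-4 : ℝ) * (1 / 2) ^ u) := by
        rw [ENNReal.ofReal_tsum_of_nonneg]
        · intro u; positivity
        · exact (summable_geometric_two).mul_left _
    _ ≤ ENNReal.ofReal (1 / 4) := by
        apply ENNReal.ofReal_le_ofReal
        rw [tsum_mul_left, tsum_geometric_two]
        have h1 : (P.R : ℝ) ^ (-4 : ℝ) ≤ (P.R : ℝ) ^ (-1 : ℝ) := P.rpow_mono (by norm_num)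
        rw [Real.rpow_neg_one] at h1
        have h2 : (P.R : ℝ)⁻¹ ≤ (64 : ℝ)⁻¹ := by
          have := P.R_ge
          gcongr
        have h3 : (64 : ℝ)⁻¹ = 1 / 64 := by norm_num
        linarith

end Par

/-- A common `x` for two parameter sets. -/
theorem exists_x (P : Fin 2 → Par) (hRk : ∀ t, 2 ≤ ((P t).R : ℝ) ^ (P t).k) :
    ∃ x : ℝ, ∀ t, (P t).F x := by
  by_contra hcon
  push Not at hcon
  have hsub : Set.Icc (0 : ℝ) 1 ⊆ {x : ℝ | x ∈ Set.Icc (0 : ℝ) 1 ∧ ¬ (P 0).F x} ∪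
      {x : ℝ | x ∈ Set.Icc (0 : ℝ) 1 ∧ ¬ (P 1).F x} := by
    intro x hx
    obtain ⟨t, ht⟩ := hcon x
    fin_cases t
    · left; exact ⟨hx, ht⟩
    · right; exact ⟨hx, ht⟩
  have h1 : volume (Set.Icc (0 : ℝ) 1) ≤ ENNReal.ofReal (1 / 4) + ENNReal.ofReal (1 / 4) :=
    (measure_mono hsub).trans ((measure_union_le _ _).trans
      (add_le_add ((P 0).notF_measure (hRk 0)) ((P 1).notF_measure (hRk 1))))
  rw [Real.volume_Icc, ← ENNReal.ofReal_add (by norm_num) (by norm_num)] at h1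
  have h2 := (ENNReal.ofReal_le_ofReal_iff (by norm_num)).mp h1
  norm_num at h2

end Pool.Agent.Lib.MP_ed6e5c_nt
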