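import Pool.Agent.Lib.MP_ed6e5c_nt.Lines

set_option autoImplicit false

namespace Pool.Agent.Lib.MP_ed6e5c_nt

namespace Par

variable (P : Par)

theorem Data.q_pos {P : Par} {x : ℝ} {n u : ℕ} {y : ℝ} (d : P.Data x n u y) : (0 : ℝ) < d.q :=
  lt_of_lt_of_le (pow_pos P.R_pos u) d.hq1

theorem Data.y_near {P : Par} {x : ℝ} {n u : ℕ} {y : ℝ} (d : P.Data x n u y) :
    |y - P.yL x u d.A d.B d.C| ≤ 1 / 2 * (1 / (P.R : ℝ) ^ (n + 1)) := by
  have h1 := P.point_near d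
  have h2 := d.line_near
  have h3 := abs_sub_le y ((d.r : ℝ) / d.q) (P.yL x u d.A d.B d.C)
  have h4 : 0 < 1 / (P.R : ℝ) ^ (n + 1) := by have := P.R_pos; positivity
  linarith

theorem val_eq {x : ℝ} {u q q' : ℕ} {p r A B C : ℤ} (hqpos : (0 : ℝ) < q)
    (hqq : q = P.Du u * q') (hB0 : B ≠ 0) :
    (((A * p + B * r + C * q' : ℤ)) : ℝ) =
      -A * (q * x - p) + B * q * ((r : ℝ) / q - P.yL x u A B C) := by
  have hDp := P.Du_pos u
  have hqr : (q : ℝ) = P.Du u * q' := by rw [hqq]; push_cast; ring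
  have hBr : (B : ℝ) ≠ 0 := by exact_mod_cast hB0
  have hq'e : (C : ℝ) / P.Du u * q = C * q' := by rw [hqr]; field_simp
  unfold yL
  have h1 : (B : ℝ) * q * ((r : ℝ) / q - -(A * x + C / P.Du u) / B) =
      r * B + (A * x * q + C / P.Du u * q) := by field_simp; ring
  rw [h1, hq'e]
  push_cast
  ring

/-- Two dangerous points of the same class close to each other lie on the same line. -/
theorem near_same_line {x : ℝ} {n u : ℕ} {y y' : ℝ} (d : P.Data x n u y) (d' : P.Data x n u y')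
    (hyy : |y' - y| ≤ 1 / (P.R : ℝ) ^ n) : d.A * d'.p + d.B * d'.r + d.C * d'.q' = 0 := by
  have hRp := P.R_pos
  have hR64 := P.R_ge
  have hv := P.val_eq (x := x) (A := d.A) (p := d'.p) (B := d.B) (r := d'.r) (C := d.C)
    d'.q_pos d'.hqq d.hB0
  have hB : 0 < |(d.B : ℝ)| := by
    have := d.hB0
    exact abs_pos.mpr (by exact_mod_cast this)
  -- first term
  have h1 : |(-(d.A : ℝ)) * (d'.q * x - d'.p)| ≤ 1 / 4 := by
    rw [abs_mul, abs_neg]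
    have h2 : |(d.A : ℝ)| * |(d'.q : ℝ) * x - d'.p| ≤ 1 / 2 * (P.R : ℝ) ^ (-5 : ℝ) := by
      refine le_trans ?_ (P.A_small d.hA d'.hq1)
      gcongr
      exact d'.hx
    have h3 : (P.R : ℝ) ^ (-5 : ℝ) ≤ (P.R : ℝ) ^ (-1 : ℝ) := P.rpow_mono (by norm_num)
    rw [Real.rpow_neg_one] at h3
    have h4 : (P.R : ℝ)⁻¹ ≤ 1 / 2 := by
      calc (P.R : ℝ)⁻¹ ≤ (64 : ℝ)⁻¹ := by gcongr
        _ ≤ 1 / 2 := by norm_num
    linarith
  -- second term
  have h5 : |(d'.r : ℝ) / d'.q - P.yL x u d.A d.B d.C| ≤ 2 / (P.R : ℝ) ^ n := by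
    have e1 := P.point_near d'
    have e2 := d.y_near
    have e3 := abs_sub_le ((d'.r : ℝ) / d'.q) y' (P.yL x u d.A d.B d.C)
    have e4 := abs_sub_le y' y (P.yL x u d.A d.B d.C)
    rw [abs_sub_comm ((d'.r : ℝ) / d'.q) y'] at e3
    have e5 : 1 / (P.R : ℝ) ^ (n + 1) ≤ 1 / 64 * (1 / (P.R : ℝ) ^ n) := by
      rw [pow_succ]
      have : 1 / ((P.R : ℝ) ^ n * P.R) = 1 / (P.R : ℝ) ^ n * (1 / P.R) := by field_simp
      rw [this, mul_comm]
      gcongr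
    have e6 : 0 < 1 / (P.R : ℝ) ^ n := by positivity
    have e7 : 2 / (P.R : ℝ) ^ n = 2 * (1 / (P.R : ℝ) ^ n) := by ring
    rw [e7]
    linarith
  have h6 : |(d.B : ℝ)| * d'.q < (P.R : ℝ) ^ n / 8 := by
    have e1 : (d'.q : ℝ) < d.q * P.R := by
      calc (d'.q : ℝ) < (P.R : ℝ) ^ (u + 1) := d'.hq2
        _ = (P.R : ℝ) ^ u * P.R := pow_succ _ _
        _ ≤ d.q * P.R := by gcongr; exact d.hq1
    have e2 := d.hn2
    have e3 : |(d.B : ℝ)| * d'.q < |(d.B : ℝ)| * (d.q * P.R) := by gcongr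
    have e4 : (8 * P.R) * (|(d.B : ℝ)| * (d.q * P.R)) < (8 * P.R) * ((P.R : ℝ) ^ n / 8) := by
      calc (8 * P.R) * (|(d.B : ℝ)| * (d.q * P.R)) = 8 * (P.R : ℝ) ^ 2 * d.q * |(d.B : ℝ)| := by ring
        _ < (P.R : ℝ) ^ (n + 1) := e2
        _ = _ := by ring
    have e5 := lt_of_mul_lt_mul_left e4 (by positivity)
    linarith
  have h7 : |(d.B : ℝ) * d'.q * ((d'.r : ℝ) / d'.q - P.yL x u d.A d.B d.C)| ≤ 1 / 4 := by
    rw [abs_mul, abs_mul, abs_of_pos d'.q_pos]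
    calc |(d.B : ℝ)| * d'.q * |(d'.r : ℝ) / d'.q - P.yL x u d.A d.B d.C|
        ≤ ((P.R : ℝ) ^ n / 8) * (2 / (P.R : ℝ) ^ n) := by gcongr
      _ = 1 / 4 := by field_simp; norm_num
  have h8 : |(((d.A * d'.p + d.B * d'.r + d.C * d'.q' : ℤ)) : ℝ)| < 1 := by
    rw [hv]
    refine (abs_add_le _ _).trans_lt ?_
    linarith
  have h9 : |d.A * d'.p + d.B * d'.r + d.C * d'.q'| < 1 := by exact_mod_cast h8
  exact Int.abs_lt_one_iff.mp h9

/-- Upper bound for `|B|` in class `(n, u)`. -/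
theorem Data.B_le {P : Par} {x : ℝ} {n u : ℕ} {y : ℝ} (d : P.Data x n u y) :
    |(d.B : ℝ)| ≤ (P.R : ℝ) ^ ((n : ℝ) - 1 - u) / 8 := by
  have hRp := P.R_pos
  have h1 : 8 * (P.R : ℝ) ^ 2 * (P.R : ℝ) ^ u * |(d.B : ℝ)| ≤ (P.R : ℝ) ^ (n + 1) := by
    refine le_trans ?_ d.hn2.le
    gcongr
    exact d.hq1
  have h2 : (P.R : ℝ) ^ ((n : ℝ) - 1 - u) = (P.R : ℝ) ^ (n + 1) / ((P.R : ℝ) ^ 2 * (P.R : ℝ) ^ u) := by
    rw [P.rpow_nat (n + 1), P.rpow_nat u, P.rpow_nat 2, ← Real.rpow_add hRp, ← Real.rpow_sub hRp]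
    congr 1; push_cast; ring
  rw [h2, div_div, le_div_iff₀ (by positivity)]
  linarith

set_option maxHeartbeats 2000000 in
theorem no_two_lines {x : ℝ} (hF : P.F x) {n u w s : ℕ} (hw : w ≤ n) (hw1 : 1 ≤ w)
    (hcond : (w : ℝ) ≤ P.k * ((u : ℝ) * (1 + P.k) - n - P.g))
    (hdisj : ∀ m < n - w, ∀ u0, Disjoint (J P.R (n - w) s) (P.E x m u0))
    {y y' : ℝ} (d : P.Data x n u y) (d' : P.Data x n u y')
    (hy : y ∈ J P.R (n - w) s) (hy' : y' ∈ J P.R (n - w) s) :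
    d.A * d'.p + d.B * d'.r + d.C * d'.q' = 0 := by
  have hRp := P.R_pos
  have hR64 := P.R_ge
  have hR1 := P.R_one
  have hDp := P.Du_pos u
  have hi := P.hi
  have hj := P.hj
  have hk := P.hk
  have hijk := P.hijk
  have hDnat : 0 < P.Du u := by exact_mod_cast hDp
  -- abbreviations
  set ρ : ℝ := (P.R : ℝ) ^ ((w : ℝ) - n) with hρ
  have hρpos : 0 < ρ := P.rpow_pos _
  have hρ' : 1 / (P.R : ℝ) ^ (n - w) = ρ := by
    rw [hρ, P.rpow_nat, Nat.cast_sub hw, one_div, ← Real.rpow_neg hRp.le]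
    congr 1; ring
  have hJ : ∀ z ∈ J P.R (n - w) s, ∀ z' ∈ J P.R (n - w) s, |z - z'| ≤ ρ := by
    intro z hz z' hz'
    simp only [J, Set.mem_Icc] at hz hz'
    have h1 : ((s : ℝ) + 1) / (P.R : ℝ) ^ (n - w) = (s : ℝ) / (P.R : ℝ) ^ (n - w) + ρ := by
      rw [← hρ']; ring
    rw [h1] at hz hz'
    rw [abs_le]
    constructor <;> linarith [hz.1, hz.2, hz'.1, hz'.2]
  have hρ1 : 1 / (P.R : ℝ) ^ (n + 1) ≤ ρ := by
    rw [← hρ']
    apply one_div_le_one_div_of_le (by positivity)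
    exact pow_le_pow_right₀ hR1 (by omega)
  have hT1 : ∀ z ∈ J P.R (n - w) s, |z - P.yL x u d.A d.B d.C| ≤ 2 * ρ := by
    intro z hz
    have h1 := hJ z hz y hy
    have h2 := d.y_near
    have h3 := abs_sub_le z y (P.yL x u d.A d.B d.C)
    linarith
  have hT2 : ∀ z ∈ J P.R (n - w) s, |z - P.yL x u d'.A d'.B d'.C| ≤ 2 * ρ := by
    intro z hz
    have h1 := hJ z hz y' hy'
    have h2 := d'.y_near
    have h3 := abs_sub_le z y' (P.yL x u d'.A d'.B d'.C)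
    linarith
  have hT : |P.yL x u d.A d.B d.C - P.yL x u d'.A d'.B d'.C| ≤ 2 * ρ := by
    have h1 := d.y_near
    have h2 := d'.y_near
    have h3 := hJ y hy y' hy'
    have h4 := abs_sub_le (P.yL x u d.A d.B d.C) y (P.yL x u d'.A d'.B d'.C)
    have h5 := abs_sub_le y y' (P.yL x u d'.A d'.B d'.C)
    rw [abs_sub_comm (P.yL x u d.A d.B d.C) y] at h4
    linarith
  set D : ℝ := (P.Du u : ℝ) with hD
  set Y1 : ℝ := P.yL x u d.A d.B d.C with hY1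
  set Y2 : ℝ := P.yL x u d'.A d'.B d'.C with hY2
  have hBr : (d.B : ℝ) ≠ 0 := by exact_mod_cast d.hB0
  have hBr' : (d'.B : ℝ) ≠ 0 := by exact_mod_cast d'.hB0
  -- defining equations of Y1 and Y2
  have hL1 : (d.C : ℝ) = -D * (d.A * x + d.B * Y1) := by
    rw [hY1]; unfold yL; rw [← hD]; field_simp; ring
  have hL2 : (d'.C : ℝ) = -D * (d'.A * x + d'.B * Y2) := by
    rw [hY2]; unfold yL; rw [← hD]; field_simp; ring
  set β : ℝ := (P.R : ℝ) ^ ((n : ℝ) - 1 - u) / 8 with hβ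
  have hB1 : |(d.B : ℝ)| ≤ β := d.B_le
  have hB2 : |(d'.B : ℝ)| ≤ β := d'.B_le
  have hβ0 : 0 ≤ β := by rw [hβ]; have := P.rpow_pos ((n : ℝ) - 1 - u); positivity
  have hD2 : D ≤ (P.R : ℝ) ^ (1 + P.i * ((u : ℝ) + P.g)) := by
    rw [Real.rpow_add hRp, Real.rpow_one]; exact P.hD2 u
  set X : ℝ := P.X u with hX
  have hA1 : |(d.A : ℝ)| ≤ X := d.hA
  have hA2 : |(d'.A : ℝ)| ≤ X := d'.hA
  have hX0 : 0 ≤ X := by rw [hX]; unfold Par.X; have := P.rpow_pos ((u : ℝ) * P.j - P.g * P.i); positivity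
  have hXe : X = 1 / 2 * (P.R : ℝ) ^ ((u : ℝ) * P.j - P.g * P.i) := rfl
  -- exponent facts
  have hw1r : (1 : ℝ) ≤ w := by exact_mod_cast hw1
  have hl : 0 < (u : ℝ) * (1 + P.k) - n - P.g := by
    by_contra hcon
    push Not at hcon
    have : P.k * ((u : ℝ) * (1 + P.k) - n - P.g) ≤ 0 := mul_nonpos_of_nonneg_of_nonpos hk.le hcon
    linarith
  have hk1 : P.k ≤ 1 := by linarith
  have hwl : (w : ℝ) ≤ (u : ℝ) * (1 + P.k) - n - P.g := by
    have := mul_le_mul_of_nonneg_right hk1 hl.le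
    linarith
  have hg0 : (0 : ℝ) ≤ P.g := by positivity
  have hu0 : (0 : ℝ) ≤ u := by positivity
  -- G1
  have G1 : D * (|(d.B : ℝ)| * |(d'.B : ℝ)| * |Y1 - Y2|) ≤
      1 / 32 * (P.R : ℝ) ^ (-(P.j * ((u : ℝ) + P.g))) := by
    calc D * (|(d.B : ℝ)| * |(d'.B : ℝ)| * |Y1 - Y2|)
        ≤ (P.R : ℝ) ^ (1 + P.i * ((u : ℝ) + P.g)) * (β * β * (2 * ρ)) := by gcongr
      _ = 1 / 32 * ((P.R : ℝ) ^ (1 + P.i * ((u : ℝ) + P.g)) * (P.R : ℝ) ^ ((n : ℝ) - 1 - u) *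
            (P.R : ℝ) ^ ((n : ℝ) - 1 - u) * (P.R : ℝ) ^ ((w : ℝ) - n)) := by
          rw [hβ, hρ]; ring
      _ = 1 / 32 * (P.R : ℝ) ^ (1 + P.i * ((u : ℝ) + P.g) + ((n : ℝ) - 1 - u) +
            ((n : ℝ) - 1 - u) + ((w : ℝ) - n)) := by
          rw [← Real.rpow_add hRp, ← Real.rpow_add hRp, ← Real.rpow_add hRp]
      _ ≤ 1 / 32 * (P.R : ℝ) ^ (-(P.j * ((u : ℝ) + P.g))) := by
          have : 1 + P.i * ((u : ℝ) + P.g) + ((n : ℝ) - 1 - u) +
            ((n : ℝ) - 1 - u) + ((w : ℝ) - n) ≤ -(P.j * ((u : ℝ) + P.g)) := by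
            have e : P.i = 1 - P.j - P.k := by linarith
            have e2 : 0 ≤ P.k * P.g := by positivity
            rw [e]
            linarith
          have := P.rpow_mono this
          linarith
  -- G2
  have G2 : ∀ z ∈ J P.R (n - w) s, D * (|(d.A : ℝ)| * |(d'.B : ℝ)| * |z - Y2| +
      |(d'.A : ℝ)| * |(d.B : ℝ)| * |z - Y1|) ≤ 1 / 4 * (P.R : ℝ) ^ ((w : ℝ) - u * P.k) := by
    intro z hz
    have h1 := hT1 z hz
    have h2 := hT2 z hz
    calc D * (|(d.A : ℝ)| * |(d'.B : ℝ)| * |z - Y2| + |(d'.A : ℝ)| * |(d.B : ℝ)| * |z - Y1|)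
        ≤ (P.R : ℝ) ^ (1 + P.i * ((u : ℝ) + P.g)) * (X * β * (2 * ρ) + X * β * (2 * ρ)) := by gcongr
      _ = 1 / 4 * ((P.R : ℝ) ^ (1 + P.i * ((u : ℝ) + P.g)) *
            (P.R : ℝ) ^ ((u : ℝ) * P.j - P.g * P.i) *
            (P.R : ℝ) ^ ((n : ℝ) - 1 - u) * (P.R : ℝ) ^ ((w : ℝ) - n)) := by
          rw [hβ, hρ, hXe]; ring
      _ = 1 / 4 * (P.R : ℝ) ^ (1 + P.i * ((u : ℝ) + P.g) + ((u : ℝ) * P.j - P.g * P.i) +
            ((n : ℝ) - 1 - u) + ((w : ℝ) - n)) := by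
          rw [← Real.rpow_add hRp, ← Real.rpow_add hRp, ← Real.rpow_add hRp]
      _ = _ := by
          congr 2
          have e : P.i = 1 - P.j - P.k := by linarith
          rw [e]; ring
  -- G3
  have G3 : D * (|(d.A : ℝ)| * |(d'.B : ℝ)| + |(d'.A : ℝ)| * |(d.B : ℝ)|) ≤
      1 / 8 * (P.R : ℝ) ^ ((n : ℝ) - u * P.k) := by
    calc D * (|(d.A : ℝ)| * |(d'.B : ℝ)| + |(d'.A : ℝ)| * |(d.B : ℝ)|)
        ≤ (P.R : ℝ) ^ (1 + P.i * ((u : ℝ) + P.g)) * (X * β + X * β) := by gcongr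
      _ = 1 / 8 * ((P.R : ℝ) ^ (1 + P.i * ((u : ℝ) + P.g)) *
            (P.R : ℝ) ^ ((u : ℝ) * P.j - P.g * P.i) * (P.R : ℝ) ^ ((n : ℝ) - 1 - u)) := by
          rw [hβ, hXe]; ring
      _ = 1 / 8 * (P.R : ℝ) ^ (1 + P.i * ((u : ℝ) + P.g) + ((u : ℝ) * P.j - P.g * P.i) +
            ((n : ℝ) - 1 - u)) := by
          rw [← Real.rpow_add hRp, ← Real.rpow_add hRp]
      _ = _ := by
          congr 2
          have e : P.i = 1 - P.j - P.k := by linarith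
          rw [e]; ring
  -- the determinant
  set δ : ℤ := d.A * d'.B - d'.A * d.B with hδ
  by_cases hδ0 : δ = 0
  · -- parallel lines
    by_contra hN
    have hdet : d.C * d'.B - d'.C * d.B ≠ 0 := by
      intro h0
      apply hN
      have h1 : d'.B * (d.A * d'.p + d.B * d'.r + d.C * d'.q') = 0 := by
        have h2 := d'.hline
        have h3 : d.A * d'.B - d'.A * d.B = 0 := by rw [← hδ]; exact hδ0
        linear_combination h3 * d'.p + h0 * d'.q' + d.B * h2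
      exact (mul_eq_zero.mp h1).resolve_left d'.hB0
    have h1 : (1 : ℝ) ≤ |((d.C * d'.B - d'.C * d.B : ℤ) : ℝ)| := by
      rw [← Int.cast_abs]
      have := Int.one_le_abs hdet
      exact_mod_cast this
    have h2 : ((d.C * d'.B - d'.C * d.B : ℤ) : ℝ) = -D * (d.B * d'.B * (Y1 - Y2)) := by
      have h3 : (d.A : ℝ) * d'.B - d'.A * d.B = 0 := by
        have : d.A * d'.B - d'.A * d.B = 0 := by rw [← hδ]; exact hδ0
        exact_mod_cast this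
      push_cast
      rw [hL1, hL2]
      linear_combination (-D * x) * h3
    rw [h2, abs_mul, abs_neg, abs_of_pos hDp, abs_mul, abs_mul] at h1
    have h3 : (P.R : ℝ) ^ (-(P.j * ((u : ℝ) + P.g))) ≤ 1 := by
      have h4 : -(P.j * ((u : ℝ) + P.g)) ≤ 0 := by
        have : 0 ≤ P.j * ((u : ℝ) + P.g) := by positivity
        linarith
      have := P.rpow_mono h4
      rwa [Real.rpow_zero] at this
    linarith
  · -- intersecting lines: impossible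
    exfalso
    set σ : ℤ := δ.sign with hσ
    have hσabs : |(σ : ℝ)| = 1 := by
      have : |σ| = 1 := by rw [hσ]; exact Int.abs_sign_of_ne_zero hδ0
      exact_mod_cast this
    have hσδ : σ * δ = (δ.natAbs : ℤ) := by
      rw [hσ, Int.sign_mul_self_eq_natAbs]
    set Q : ℕ := δ.natAbs with hQ
    have hQpos : 0 < Q := Int.natAbs_pos.mpr hδ0
    set q0 : ℕ := P.Du u * Q with hq0
    have hq0pos : 0 < q0 := Nat.mul_pos hDnat hQpos
    have hq0r : (q0 : ℝ) = D * (σ * δ) := by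
      have h1 : ((Q : ℤ) : ℝ) = ((σ * δ : ℤ) : ℝ) := by rw [hσδ]
      rw [hq0]; push_cast at h1 ⊢; rw [h1]
    set p0 : ℤ := σ * (d.B * d'.C - d'.B * d.C) with hp0
    set r0 : ℤ := σ * (d.C * d'.A - d'.C * d.A) with hr0
    have hδr : (δ : ℝ) = d.A * d'.B - d'.A * d.B := by rw [hδ]; push_cast; ring
    have hx0 : |(q0 : ℝ) * x - p0| = D * (|(d.B : ℝ)| * |(d'.B : ℝ)| * |Y1 - Y2|) := by
      have h1 : (q0 : ℝ) * x - p0 = σ * (D * (d.B * d'.B * (Y2 - Y1))) := by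
        rw [hq0r, hp0]; push_cast; rw [hL1, hL2, hδr]; ring
      rw [h1, abs_mul, hσabs, one_mul, abs_mul, abs_of_pos hDp, abs_mul, abs_mul,
        abs_sub_comm Y2 Y1]
    have hy0 : ∀ z, |(q0 : ℝ) * z - r0| ≤ D * (|(d.A : ℝ)| * |(d'.B : ℝ)| * |z - Y2| +
        |(d'.A : ℝ)| * |(d.B : ℝ)| * |z - Y1|) := by
      intro z
      have h1 : (q0 : ℝ) * z - r0 = σ * (D * (d.A * d'.B * (z - Y2) - d'.A * d.B * (z - Y1))) := by
        rw [hq0r, hr0]; push_cast; rw [hL1, hL2, hδr]; ring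
      rw [h1, abs_mul, hσabs, one_mul, abs_mul, abs_of_pos hDp]
      gcongr
      refine (abs_sub _ _).trans ?_
      rw [abs_mul, abs_mul, abs_mul, abs_mul]
    have hq0le : (q0 : ℝ) ≤ (P.R : ℝ) ^ ((n : ℝ) - u * P.k) := by
      have h1 : (q0 : ℝ) ≤ D * (|(d.A : ℝ)| * |(d'.B : ℝ)| + |(d'.A : ℝ)| * |(d.B : ℝ)|) := by
        rw [hq0r]
        gcongr
        calc (σ : ℝ) * δ ≤ |(σ : ℝ) * δ| := le_abs_self _
          _ = |(δ : ℝ)| := by rw [abs_mul, hσabs, one_mul]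
          _ ≤ _ := by
            rw [hδr]
            refine (abs_sub _ _).trans ?_
            rw [abs_mul, abs_mul]
      have h2 := P.rpow_pos ((n : ℝ) - u * P.k)
      linarith
    have hq0u : (q0 : ℝ) ≤ (P.R : ℝ) ^ u := by
      refine hq0le.trans ?_
      rw [P.rpow_nat]
      apply P.rpow_mono
      linarith
    -- dangerous conditions
    have hx0' : |(q0 : ℝ) * x - p0| ≤ P.cq P.j q0 := by
      rw [hx0]
      refine G1.trans ?_
      have h1 := P.le_cq P.hj hq0pos (a := (u : ℝ)) (by rw [← P.rpow_nat]; exact hq0u)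
      have h2 := P.rpow_pos (-(P.j * ((u : ℝ) + P.g)))
      linarith
    have hy0' : ∀ z ∈ J P.R (n - w) s, |(q0 : ℝ) * z - r0| ≤ P.cq P.k q0 := by
      intro z hz
      refine (hy0 z).trans ((G2 z hz).trans ?_)
      have h1 := P.le_cq P.hk.le hq0pos hq0le
      have h2 : (w : ℝ) - u * P.k ≤ -(P.k * ((n : ℝ) - u * P.k + P.g)) := by linarith
      have h3 := P.rpow_mono h2
      have h4 := P.rpow_pos ((w : ℝ) - u * P.k)
      linarith
    -- the class of the intersection point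
    set u0 : ℕ := Nat.log P.R q0 with hu0'
    have hRnat : 1 < P.R := by have := P.hR; omega
    have hu0u : u0 ≤ u := by
      have h1 : q0 ≤ P.R ^ u := by exact_mod_cast hq0u
      calc u0 ≤ Nat.log P.R (P.R ^ u) := Nat.log_mono_right h1
        _ = u := Nat.log_pow hRnat u
    have hc1 : (P.R : ℝ) ^ u0 ≤ q0 := by
      have := Nat.pow_log_le_self P.R hq0pos.ne'
      exact_mod_cast this
    have hc2 : (q0 : ℝ) < (P.R : ℝ) ^ (u0 + 1) := by
      have := Nat.lt_pow_succ_log_self hRnat q0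
      exact_mod_cast this
    obtain ⟨m0, hm0⟩ := P.hD3 u0 u hu0u
    have hqq0 : q0 = P.Du u0 * (m0 * Q) := by rw [hq0, hm0]; ring
    obtain ⟨A0, B0, C0, hl0, hA0, hB0, hB00⟩ := P.exists_line (r := r0) hF hc1 hc2 hqq0 hx0'
    have hBnat : ((B0.natAbs : ℕ) : ℝ) = |(B0 : ℝ)| := by rw [Nat.cast_natAbs, Int.cast_abs]
    have hBpos : 0 < B0.natAbs := Int.natAbs_pos.mpr hB00
    set H0 : ℕ := 8 * P.R ^ 2 * q0 * B0.natAbs with hH0
    have hH0pos : 0 < H0 := by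
      have : 0 < P.R := by omega
      positivity
    set n0 : ℕ := Nat.log P.R H0 with hn0
    have hH0r : (H0 : ℝ) = 8 * (P.R : ℝ) ^ 2 * q0 * |(B0 : ℝ)| := by
      rw [hH0]; push_cast; rw [Nat.cast_natAbs, Int.cast_abs]
    have hn1 : (P.R : ℝ) ^ n0 ≤ 8 * (P.R : ℝ) ^ 2 * q0 * |(B0 : ℝ)| := by
      rw [← hH0r]
      have := Nat.pow_log_le_self P.R hH0pos.ne'
      exact_mod_cast this
    have hn2 : 8 * (P.R : ℝ) ^ 2 * q0 * |(B0 : ℝ)| < (P.R : ℝ) ^ (n0 + 1) := by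
      rw [← hH0r]
      have := Nat.lt_pow_succ_log_self hRnat H0
      exact_mod_cast this
    -- the stage is earlier
    have hstage : n0 < n - w := by
      have hz1 : (s : ℝ) / (P.R : ℝ) ^ (n - w) ∈ J P.R (n - w) s := by
        simp only [J, Set.mem_Icc]
        refine ⟨le_refl _, ?_⟩
        gcongr; linarith
      have hz2 : ((s : ℝ) + 1) / (P.R : ℝ) ^ (n - w) ∈ J P.R (n - w) s := by
        simp only [J, Set.mem_Icc]
        refine ⟨?_, le_refl _⟩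
        gcongr; linarith
      have h1 := abs_le.mp (hy0' _ hz1)
      have h2 := abs_le.mp (hy0' _ hz2)
      have h3 : ((s : ℝ) + 1) / (P.R : ℝ) ^ (n - w) = (s : ℝ) / (P.R : ℝ) ^ (n - w) + ρ := by
        rw [← hρ']; ring
      have h4 : (q0 : ℝ) * ρ ≤ 2 * P.cq P.k q0 := by
        rw [h3] at h2
        have h5 := h1.1
        have h6 := h2.2
        linarith
      have h5 := P.B_small hB0 hc1
      have h6 : (P.R : ℝ) ^ n0 * ρ ≤ 32 * ((P.R : ℝ) ^ 2 * (P.R : ℝ) ^ (-4 : ℝ)) := by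
        calc (P.R : ℝ) ^ n0 * ρ ≤ (8 * (P.R : ℝ) ^ 2 * q0 * |(B0 : ℝ)|) * ρ := by gcongr
          _ = 8 * (P.R : ℝ) ^ 2 * |(B0 : ℝ)| * (q0 * ρ) := by ring
          _ ≤ 8 * (P.R : ℝ) ^ 2 * |(B0 : ℝ)| * (2 * P.cq P.k q0) := by gcongr
          _ = 16 * (P.R : ℝ) ^ 2 * (|(B0 : ℝ)| * P.cq P.k q0) := by ring
          _ ≤ 16 * (P.R : ℝ) ^ 2 * (2 * (P.R : ℝ) ^ (-4 : ℝ)) := by gcongr
          _ = _ := by ring
      have h7 : (P.R : ℝ) ^ 2 * (P.R : ℝ) ^ (-4 : ℝ) = (P.R : ℝ) ^ (-2 : ℝ) := by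
        rw [P.rpow_nat 2, ← Real.rpow_add hRp]; norm_num
      have h8 : 32 * (P.R : ℝ) ^ (-2 : ℝ) < 1 := by
        have h9 : (P.R : ℝ) ^ (-2 : ℝ) ≤ (P.R : ℝ) ^ (-1 : ℝ) := P.rpow_mono (by norm_num)
        rw [Real.rpow_neg_one] at h9
        have h10 : (P.R : ℝ)⁻¹ ≤ (64 : ℝ)⁻¹ := by gcongr
        have h11 : (64 : ℝ)⁻¹ = 1 / 64 := by norm_num
        linarith
      rw [h7] at h6
      have h9 : (P.R : ℝ) ^ n0 * ρ < 1 := lt_of_le_of_lt h6 h8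
      rw [← hρ', mul_one_div, div_lt_one (by positivity)] at h9
      exact (pow_lt_pow_iff_right₀ (by linarith)).mp h9
    have hmem : y ∈ P.E x n0 u0 := by
      refine ⟨⟨p0, r0, q0, m0 * Q, A0, B0, C0, hc1, hc2, hqq0, hx0', hy0' y hy, hl0, hA0, hB0,
        hB00, hn1, hn2⟩⟩
    exact Set.disjoint_left.mp (hdisj n0 hstage u0) hy hmem

end Par

end Pool.Agent.Lib.MP_ed6e5c_nt
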