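import Pool.Agent.Lib.MP_ed6e5c_nt.Cantor

set_option autoImplicit false

namespace Pool.Agent.Lib.MP_ed6e5c_nt

/-- Pigeonhole (Thue / Minkowski in dimension two). -/
theorem pigeon (p r : ℤ) (q : ℕ) (hq : 0 < q) (X Y : ℝ) (hX : 0 ≤ X) (hY : 0 ≤ Y)
    (hXY : (q : ℝ) ≤ X * Y) :
    ∃ A B C : ℤ, A * p + B * r + C * q = 0 ∧ (A ≠ 0 ∨ B ≠ 0) ∧
      |(A : ℝ)| ≤ X ∧ |(B : ℝ)| ≤ Y := by
  classical
  set S : Finset (ℕ × ℕ) := Finset.range (⌊X⌋₊ + 1) ×ˢ Finset.range (⌊Y⌋₊ + 1) with hS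
  let f : ℕ × ℕ → ℤ := fun ab => ((ab.1 : ℤ) * p + (ab.2 : ℤ) * r) % q
  have hcard : (Finset.Ico (0 : ℤ) q).card < S.card := by
    rw [Int.card_Ico, hS, Finset.card_product, Finset.card_range, Finset.card_range]
    simp only [sub_zero, Int.toNat_natCast]
    have h1 : X < (⌊X⌋₊ : ℝ) + 1 := Nat.lt_floor_add_one X
    have h2 : Y < (⌊Y⌋₊ : ℝ) + 1 := Nat.lt_floor_add_one Y
    have h3 : (q : ℝ) < ((⌊X⌋₊ : ℝ) + 1) * ((⌊Y⌋₊ : ℝ) + 1) := by nlinarith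
    exact_mod_cast h3
  have hmaps : Set.MapsTo f (↑S) (↑(Finset.Ico (0 : ℤ) q)) := by
    intro ab _
    simp only [Finset.coe_Ico, Set.mem_Ico, f]
    have hq' : (0 : ℤ) < q := by exact_mod_cast hq
    exact ⟨Int.emod_nonneg _ hq'.ne', Int.emod_lt_of_pos _ hq'⟩
  obtain ⟨a, ha, b, hb, hab, hf⟩ := Finset.exists_ne_map_eq_of_card_lt_of_maps_to hcard hmaps
  simp only [hS, Finset.mem_product, Finset.mem_range, Nat.lt_succ_iff] at ha hb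
  have hdvd : (q : ℤ) ∣ ((a.1 : ℤ) * p + (a.2 : ℤ) * r) - ((b.1 : ℤ) * p + (b.2 : ℤ) * r) :=
    Int.ModEq.dvd (show ((b.1 : ℤ) * p + (b.2 : ℤ) * r) ≡ ((a.1 : ℤ) * p + (a.2 : ℤ) * r) [ZMOD q]
      from hf.symm)
  obtain ⟨C, hC⟩ := hdvd
  have habs : ∀ (Z : ℝ) (a b : ℕ), 0 ≤ Z → a ≤ ⌊Z⌋₊ → b ≤ ⌊Z⌋₊ →
      |(((a : ℤ) - (b : ℤ) : ℤ) : ℝ)| ≤ Z := by
    intro Z a b hZ ha hb
    have h1 : (a : ℝ) ≤ Z := (Nat.cast_le.mpr ha).trans (Nat.floor_le hZ)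
    have h2 : (b : ℝ) ≤ Z := (Nat.cast_le.mpr hb).trans (Nat.floor_le hZ)
    have h3 : (0 : ℝ) ≤ a := by positivity
    have h4 : (0 : ℝ) ≤ b := by positivity
    push_cast
    rw [abs_le]
    constructor <;> linarith
  refine ⟨(a.1 : ℤ) - b.1, (a.2 : ℤ) - b.2, -C, ?_, ?_, habs X _ _ hX ha.1 hb.1,
    habs Y _ _ hY ha.2 hb.2⟩
  · linear_combination hC
  · by_contra hcon
    push Not at hcon
    apply hab
    ext
    · have := hcon.1; omega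
    · have := hcon.2; omega

/-- Parameters attached to one triple of weights. -/
structure Par where
  R : ℕ
  g : ℕ
  Du : ℕ → ℕ
  i : ℝ
  j : ℝ
  k : ℝ
  hR : 64 ≤ R
  hi : 0 ≤ i
  hj : 0 ≤ j
  hk : 0 < k
  hijk : i + j + k = 1
  hgk : 5 ≤ g * k
  hgk' : k = 1 ∨ 5 ≤ g * (1 - k)
  hD1 : ∀ u : ℕ, (R : ℝ) ^ (i * ((u : ℝ) + g)) ≤ Du u
  hD2 : ∀ u : ℕ, (Du u : ℝ) ≤ R * (R : ℝ) ^ (i * ((u : ℝ) + g))
  hD3 : ∀ u v : ℕ, u ≤ v → Du u ∣ Du v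

namespace Par

variable (P : Par)

/-- bound for the coefficient `A` -/
noncomputable def X (u : ℕ) : ℝ := 1 / 2 * (P.R : ℝ) ^ ((u : ℝ) * P.j - P.g * P.i)

/-- bound for the coefficient `B` -/
noncomputable def Y (u : ℕ) : ℝ := 2 * (P.R : ℝ) ^ ((u : ℝ) * P.k + 1)

/-- the quantity `(c / q) ^ e`, with `c = R ^ (-g)` -/
noncomputable def cq (e : ℝ) (q : ℕ) : ℝ := ((P.R : ℝ) ^ P.g * q) ^ (-e)

/-- The condition on `x`. -/
def F (x : ℝ) : Prop := ∀ u a : ℕ, 1 ≤ a → (a : ℝ) ≤ P.X u → ∀ p : ℤ,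
  (a : ℝ) * P.Du u * (P.R : ℝ) ^ (-(P.j * ((u : ℝ) + P.g)) - u) < |(a : ℝ) * P.Du u * x - p|

/-- Data for a dangerous point together with a line. -/
structure Data (x : ℝ) (n u : ℕ) (y : ℝ) where
  p : ℤ
  r : ℤ
  q : ℕ
  q' : ℕ
  A : ℤ
  B : ℤ
  C : ℤ
  hq1 : (P.R : ℝ) ^ u ≤ q
  hq2 : (q : ℝ) < (P.R : ℝ) ^ (u + 1)
  hqq : q = P.Du u * q'
  hx : |(q : ℝ) * x - p| ≤ P.cq P.j q
  hy : |(q : ℝ) * y - r| ≤ P.cq P.k q
  hline : A * p + B * r + C * q' = 0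
  hA : |(A : ℝ)| ≤ P.X u
  hB : |(B : ℝ)| ≤ P.Y u
  hB0 : B ≠ 0
  hn1 : (P.R : ℝ) ^ n ≤ 8 * (P.R : ℝ) ^ 2 * q * |(B : ℝ)|
  hn2 : 8 * (P.R : ℝ) ^ 2 * q * |(B : ℝ)| < (P.R : ℝ) ^ (n + 1)

/-- The dangerous set of class `(n, u)`. -/
def E (x : ℝ) (n u : ℕ) : Set ℝ := {y | Nonempty (P.Data x n u y)}

theorem R_pos : (0 : ℝ) < P.R := by
  have := P.hR
  have h : 0 < P.R := by omega
  exact_mod_cast h

theorem R_ge : (64 : ℝ) ≤ P.R := by exact_mod_cast P.hR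

theorem R_one : (1 : ℝ) ≤ P.R := by linarith [P.R_ge]

theorem rpow_mono {a b : ℝ} (h : a ≤ b) : (P.R : ℝ) ^ a ≤ (P.R : ℝ) ^ b :=
  Real.rpow_le_rpow_of_exponent_le P.R_one h

theorem rpow_pos (a : ℝ) : 0 < (P.R : ℝ) ^ a := Real.rpow_pos_of_pos P.R_pos a

theorem rpow_nat (n : ℕ) : (P.R : ℝ) ^ n = (P.R : ℝ) ^ (n : ℝ) := (Real.rpow_natCast _ n).symm

/-- upper bound of `(c/q)^e` -/
theorem cq_le {e : ℝ} (he : 0 ≤ e) {q u : ℕ} (hq : (P.R : ℝ) ^ u ≤ q) :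
    P.cq e q ≤ (P.R : ℝ) ^ (-(e * ((u : ℝ) + P.g))) := by
  unfold cq
  have h1 : (P.R : ℝ) ^ ((u : ℝ) + P.g) ≤ (P.R : ℝ) ^ P.g * q := by
    rw [Real.rpow_add P.R_pos, ← P.rpow_nat, ← P.rpow_nat, mul_comm]
    have := P.R_pos
    gcongr
  calc ((P.R : ℝ) ^ P.g * q) ^ (-e) ≤ ((P.R : ℝ) ^ ((u : ℝ) + P.g)) ^ (-e) :=
        Real.rpow_le_rpow_of_nonpos (P.rpow_pos _) h1 (by linarith)
    _ = _ := by
        rw [← Real.rpow_mul P.R_pos.le]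
        congr 1; ring

/-- lower bound of `(c/q)^e` -/
theorem le_cq {e : ℝ} (he : 0 ≤ e) {q : ℕ} (hq0 : 0 < q) {a : ℝ} (hq : (q : ℝ) ≤ (P.R : ℝ) ^ a) :
    (P.R : ℝ) ^ (-(e * (a + P.g))) ≤ P.cq e q := by
  unfold cq
  have hqr : (0 : ℝ) < q := by exact_mod_cast hq0
  have hRp := P.R_pos
  have h1 : (P.R : ℝ) ^ P.g * q ≤ (P.R : ℝ) ^ (a + P.g) := by
    rw [Real.rpow_add P.R_pos, ← P.rpow_nat, mul_comm]
    gcongr
  calc _ = ((P.R : ℝ) ^ (a + P.g)) ^ (-e) := by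
        rw [← Real.rpow_mul P.R_pos.le]
        congr 1; ring
    _ ≤ _ := Real.rpow_le_rpow_of_nonpos (by positivity) h1 (by linarith)

/-- Lemma A: `|A| (c/q)^j` is tiny. -/
theorem A_small {u q : ℕ} {A : ℤ} (hA : |(A : ℝ)| ≤ P.X u) (hq : (P.R : ℝ) ^ u ≤ q) :
    |(A : ℝ)| * P.cq P.j q ≤ 1 / 2 * (P.R : ℝ) ^ (-5 : ℝ) := by
  have h1 := P.cq_le P.hj hq
  have hi := P.hi
  have hj := P.hj
  have hijk := P.hijk
  rcases P.hgk' with hk | hk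
  · have hi0 : P.i = 0 := by linarith
    have hj0 : P.j = 0 := by linarith
    have hX : P.X u = 1 / 2 := by simp [X, hi0, hj0]
    rw [hX] at hA
    have hA0 : A = 0 := by
      have h2 : |(A : ℝ)| < 1 := by linarith
      have h3 : |A| < 1 := by exact_mod_cast h2
      exact Int.abs_lt_one_iff.mp h3
    rw [hA0]
    simp only [Int.cast_zero, abs_zero, zero_mul]
    have := P.rpow_pos (-5 : ℝ)
    linarith
  · have h2 : |(A : ℝ)| * P.cq P.j q ≤ P.X u * (P.R : ℝ) ^ (-(P.j * ((u : ℝ) + P.g))) := by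
      have h3 : 0 ≤ P.cq P.j q := by unfold cq; positivity
      exact mul_le_mul hA h1 h3 (le_trans (abs_nonneg _) hA)
    refine h2.trans ?_
    unfold X
    rw [mul_assoc, ← Real.rpow_add P.R_pos]
    have h4 : (u : ℝ) * P.j - P.g * P.i + -(P.j * ((u : ℝ) + P.g)) ≤ -5 := by
      have h5 : (P.g : ℝ) * (1 - P.k) = P.g * P.i + P.j * P.g := by
        have : 1 - P.k = P.i + P.j := by linarith
        rw [this]; ring
      linarith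
    have := P.rpow_mono h4
    linarith

/-- Lemma B: `|B| (c/q)^k` is tiny. -/
theorem B_small {u q : ℕ} {B : ℤ} (hB : |(B : ℝ)| ≤ P.Y u) (hq : (P.R : ℝ) ^ u ≤ q) :
    |(B : ℝ)| * P.cq P.k q ≤ 2 * (P.R : ℝ) ^ (-4 : ℝ) := by
  have h1 := P.cq_le P.hk.le hq
  have h2 : |(B : ℝ)| * P.cq P.k q ≤ P.Y u * (P.R : ℝ) ^ (-(P.k * ((u : ℝ) + P.g))) := by
    have h3 : 0 ≤ P.cq P.k q := by unfold cq; positivity
    exact mul_le_mul hB h1 h3 (le_trans (abs_nonneg _) hB)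
  refine h2.trans ?_
  unfold Y
  rw [mul_assoc, ← Real.rpow_add P.R_pos]
  have h4 : (u : ℝ) * P.k + 1 + -(P.k * ((u : ℝ) + P.g)) ≤ -4 := by
    have := P.hgk
    nlinarith
  have := P.rpow_mono h4
  linarith

theorem Du_pos (u : ℕ) : (0 : ℝ) < P.Du u := lt_of_lt_of_le (P.rpow_pos _) (P.hD1 u)

/-- Existence of a rational line through a dangerous point, not vertical. -/
theorem exists_line {x : ℝ} (hF : P.F x) {u q q' : ℕ} (hq1 : (P.R : ℝ) ^ u ≤ q)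
    (hq2 : (q : ℝ) < (P.R : ℝ) ^ (u + 1)) (hqq : q = P.Du u * q') {p r : ℤ}
    (hx : |(q : ℝ) * x - p| ≤ P.cq P.j q) :
    ∃ A B C : ℤ, A * p + B * r + C * q' = 0 ∧ |(A : ℝ)| ≤ P.X u ∧ |(B : ℝ)| ≤ P.Y u ∧ B ≠ 0 := by
  have hRp := P.R_pos
  have hDp := P.Du_pos u
  have hqr : (q : ℝ) = P.Du u * q' := by rw [hqq]; push_cast; ring
  have hqpos : (0 : ℝ) < q := lt_of_lt_of_le (pow_pos hRp u) hq1
  have hq'pos : (0 : ℝ) < q' := by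
    rw [hqr] at hqpos
    exact (pos_iff_pos_of_mul_pos hqpos).mp hDp
  have hq'nat : 0 < q' := by exact_mod_cast hq'pos
  have hX0 : 0 ≤ P.X u := by unfold X; positivity
  have hY0 : 0 ≤ P.Y u := by unfold Y; positivity
  have hXY : (q' : ℝ) ≤ P.X u * P.Y u := by
    have h1 : P.X u * P.Y u = (P.R : ℝ) ^ ((u : ℝ) + 1 - P.i * ((u : ℝ) + P.g)) := by
      unfold X Y
      have : (1 / 2 * (P.R : ℝ) ^ ((u : ℝ) * P.j - P.g * P.i)) *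
        (2 * (P.R : ℝ) ^ ((u : ℝ) * P.k + 1)) =
        (P.R : ℝ) ^ ((u : ℝ) * P.j - P.g * P.i) * (P.R : ℝ) ^ ((u : ℝ) * P.k + 1) := by ring
      rw [this, ← Real.rpow_add hRp]
      congr 1
      have h := P.hijk
      have hk : P.k = 1 - P.i - P.j := by linarith
      rw [hk]; ring
    rw [h1]
    have h2 : (P.R : ℝ) ^ ((u : ℝ) + 1 - P.i * ((u : ℝ) + P.g)) =
        (P.R : ℝ) ^ (u + 1) / (P.R : ℝ) ^ (P.i * ((u : ℝ) + P.g)) := by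
      rw [Real.rpow_sub hRp, P.rpow_nat]; push_cast; rfl
    rw [h2, le_div_iff₀ (P.rpow_pos _)]
    calc (q' : ℝ) * (P.R : ℝ) ^ (P.i * ((u : ℝ) + P.g)) ≤ q' * P.Du u := by
          gcongr; exact P.hD1 u
      _ = q := by rw [hqr]; ring
      _ ≤ _ := hq2.le
  obtain ⟨A, B, C, h1, h2, h3, h4⟩ := pigeon p r q' hq'nat (P.X u) (P.Y u) hX0 hY0 hXY
  refine ⟨A, B, C, h1, h3, h4, ?_⟩
  intro hB
  rw [hB] at h1 h2
  have hA : A ≠ 0 := by simpa using h2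
  have h1r : (A : ℝ) * p + C * q' = 0 := by
    have : (A * p + 0 * r + C * q' : ℤ) = 0 := h1
    have h5 : A * p + C * (q' : ℤ) = 0 := by linarith
    exact_mod_cast h5
  have hid : (q' : ℝ) * ((A : ℝ) * P.Du u * x + C) = A * (q * x - p) := by
    rw [hqr]; linear_combination h1r
  have hb : |(A : ℝ) * P.Du u * x + C| ≤
      |(A : ℝ)| * P.Du u * (P.R : ℝ) ^ (-(P.j * ((u : ℝ) + P.g)) - u) := by
    have h5 : (q' : ℝ) * |(A : ℝ) * P.Du u * x + C| = |(A : ℝ)| * |(q : ℝ) * x - p| := by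
      rw [← abs_mul, ← hid, abs_mul, abs_of_pos hq'pos]
    have h6 := hx.trans (P.cq_le P.hj hq1)
    have h7 : (q' : ℝ) * |(A : ℝ) * P.Du u * x + C| ≤
        |(A : ℝ)| * (P.R : ℝ) ^ (-(P.j * ((u : ℝ) + P.g))) := by
      rw [h5]; gcongr
    have h8 : (P.R : ℝ) ^ (-(P.j * ((u : ℝ) + P.g)) - u) =
        (P.R : ℝ) ^ (-(P.j * ((u : ℝ) + P.g))) / (P.R : ℝ) ^ u := by
      rw [Real.rpow_sub hRp, P.rpow_nat]
    have hRu : (0 : ℝ) < (P.R : ℝ) ^ u := by positivity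
    have h9 : (P.R : ℝ) ^ u * |(A : ℝ) * P.Du u * x + C| ≤
        P.Du u * (|(A : ℝ)| * (P.R : ℝ) ^ (-(P.j * ((u : ℝ) + P.g)))) := by
      calc (P.R : ℝ) ^ u * |(A : ℝ) * P.Du u * x + C|
          ≤ (P.Du u * q') * |(A : ℝ) * P.Du u * x + C| := by
            gcongr; rw [← hqr]; exact hq1
        _ = P.Du u * (q' * |(A : ℝ) * P.Du u * x + C|) := by ring
        _ ≤ _ := by gcongr
    rw [h8]
    rw [← mul_div_assoc, le_div_iff₀ hRu]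
    linarith
  have hnat : ((A.natAbs : ℕ) : ℝ) = |(A : ℝ)| := by
    rw [Nat.cast_natAbs, Int.cast_abs]
  have h1' : 1 ≤ A.natAbs := Int.natAbs_pos.mpr hA
  have hFx := hF u A.natAbs h1' (by rw [hnat]; exact h3)
  rcases abs_cases (A : ℝ) with ⟨hs, _⟩ | ⟨hs, _⟩
  · have h10 := hFx (-C)
    rw [hnat, hs] at h10
    rw [hs] at hb
    have : (A : ℝ) * P.Du u * x - ((-C : ℤ) : ℝ) = A * P.Du u * x + C := by push_cast; ring
    rw [this] at h10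
    linarith
  · have h10 := hFx C
    rw [hnat, hs] at h10
    rw [hs] at hb
    have : -(A : ℝ) * P.Du u * x - (C : ℝ) = -(A * P.Du u * x + C) := by ring
    rw [this, abs_neg] at h10
    linarith

/-- second coordinate of the intersection of a line with the vertical line at `x` -/
noncomputable def yL (x : ℝ) (u : ℕ) (A B C : ℤ) : ℝ := -(A * x + C / P.Du u) / B

theorem line_near {x : ℝ} {n u q q' : ℕ} {p r A B C : ℤ} (hq1 : (P.R : ℝ) ^ u ≤ q)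
    (hqq : q = P.Du u * q') (hx : |(q : ℝ) * x - p| ≤ P.cq P.j q)
    (hline : A * p + B * r + C * q' = 0) (hA : |(A : ℝ)| ≤ P.X u) (hB0 : B ≠ 0)
    (hlow : (P.R : ℝ) ^ n ≤ 8 * (P.R : ℝ) ^ 3 * q * |(B : ℝ)|) :
    |(r : ℝ) / q - P.yL x u A B C| ≤ 1 / 16 * (1 / (P.R : ℝ) ^ (n + 1)) := by
  have hRp := P.R_pos
  have hR64 := P.R_ge
  have hDp := P.Du_pos u
  have hqr : (q : ℝ) = P.Du u * q' := by rw [hqq]; push_cast; ring
  have hqpos : (0 : ℝ) < q := lt_of_lt_of_le (pow_pos hRp u) hq1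
  have hBr : (B : ℝ) ≠ 0 := by exact_mod_cast hB0
  have hBp : 0 < |(B : ℝ)| := abs_pos.mpr hBr
  have hl : (A : ℝ) * p + B * r + C * q' = 0 := by exact_mod_cast hline
  have hid : ((r : ℝ) / q - P.yL x u A B C) * (B * q) = A * (q * x - p) := by
    unfold yL
    have hq'e : (C : ℝ) / P.Du u * q = C * q' := by rw [hqr]; field_simp
    have : ((r : ℝ) / q - -(A * x + C / P.Du u) / B) * (B * q) =
        r * B + (A * x * q + C / P.Du u * q) := by field_simp; ring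
    rw [this, hq'e]
    linear_combination hl
  have h1 : |(r : ℝ) / q - P.yL x u A B C| * (|(B : ℝ)| * q) = |(A : ℝ)| * |(q : ℝ) * x - p| := by
    rw [← abs_mul (A : ℝ), ← hid, abs_mul _ ((B : ℝ) * q), abs_mul (B : ℝ), abs_of_pos hqpos]
  have h2 : |(r : ℝ) / q - P.yL x u A B C| * (|(B : ℝ)| * q) ≤
      1 / 2 * (P.R : ℝ) ^ (-5 : ℝ) := by
    rw [h1]
    refine le_trans ?_ (P.A_small hA hq1)
    gcongr
  have h5 : (P.R : ℝ) ^ (-5 : ℝ) = 1 / (P.R : ℝ) ^ 5 := by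
    rw [Real.rpow_neg hRp.le, one_div]; norm_cast
  rw [h5] at h2
  set Z := |(r : ℝ) / q - P.yL x u A B C| with hZ
  have hZ0 : 0 ≤ Z := abs_nonneg _
  have h3 : Z * (P.R : ℝ) ^ n ≤ 4 / (P.R : ℝ) ^ 2 := by
    calc Z * (P.R : ℝ) ^ n ≤ Z * (8 * (P.R : ℝ) ^ 3 * q * |(B : ℝ)|) := by gcongr
      _ = 8 * (P.R : ℝ) ^ 3 * (Z * (|(B : ℝ)| * q)) := by ring
      _ ≤ 8 * (P.R : ℝ) ^ 3 * (1 / 2 * (1 / (P.R : ℝ) ^ 5)) := by gcongr
      _ = 4 / (P.R : ℝ) ^ 2 := by field_simp; ring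
  have h4 : Z * (P.R : ℝ) ^ (n + 1) ≤ 1 / 16 := by
    calc Z * (P.R : ℝ) ^ (n + 1) = (Z * (P.R : ℝ) ^ n) * P.R := by ring
      _ ≤ (4 / (P.R : ℝ) ^ 2) * P.R := by gcongr
      _ = 4 / P.R := by field_simp
      _ ≤ 4 / 64 := by gcongr
      _ = 1 / 16 := by norm_num
  rw [← mul_div_assoc, mul_one, le_div_iff₀ (by positivity)]
  exact h4

theorem point_near {x : ℝ} {n u : ℕ} {y : ℝ} (d : P.Data x n u y) :
    |y - (d.r : ℝ) / d.q| ≤ 1 / 4 * (1 / (P.R : ℝ) ^ (n + 1)) := by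
  have hRp := P.R_pos
  have hR64 := P.R_ge
  have hqpos : (0 : ℝ) < d.q := lt_of_lt_of_le (pow_pos hRp u) d.hq1
  have hBr : (d.B : ℝ) ≠ 0 := by exact_mod_cast d.hB0
  have hBp : 0 < |(d.B : ℝ)| := abs_pos.mpr hBr
  have h1 : |y - (d.r : ℝ) / d.q| * d.q = |(d.q : ℝ) * y - d.r| := by
    rw [← abs_of_pos hqpos, ← abs_mul, abs_of_pos hqpos]
    congr 1; field_simp
  have h2 : |y - (d.r : ℝ) / d.q| * d.q * |(d.B : ℝ)| ≤ 2 * (P.R : ℝ) ^ (-4 : ℝ) := by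
    rw [h1, mul_comm]
    refine le_trans ?_ (P.B_small d.hB d.hq1)
    gcongr
    exact d.hy
  have h5 : (P.R : ℝ) ^ (-4 : ℝ) = 1 / (P.R : ℝ) ^ 4 := by
    rw [Real.rpow_neg hRp.le, one_div]; norm_cast
  rw [h5] at h2
  set Z := |y - (d.r : ℝ) / d.q| with hZ
  have hZ0 : 0 ≤ Z := abs_nonneg _
  have h3 : Z * (P.R : ℝ) ^ n ≤ 16 / (P.R : ℝ) ^ 2 := by
    calc Z * (P.R : ℝ) ^ n ≤ Z * (8 * (P.R : ℝ) ^ 2 * d.q * |(d.B : ℝ)|) := by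
          gcongr; exact d.hn1
      _ = 8 * (P.R : ℝ) ^ 2 * (Z * d.q * |(d.B : ℝ)|) := by ring
      _ ≤ 8 * (P.R : ℝ) ^ 2 * (2 * (1 / (P.R : ℝ) ^ 4)) := by gcongr
      _ = 16 / (P.R : ℝ) ^ 2 := by field_simp; ring
  have h4 : Z * (P.R : ℝ) ^ (n + 1) ≤ 1 / 4 := by
    calc Z * (P.R : ℝ) ^ (n + 1) = (Z * (P.R : ℝ) ^ n) * P.R := by ring
      _ ≤ (16 / (P.R : ℝ) ^ 2) * P.R := by gcongr
      _ = 16 / P.R := by field_simp
      _ ≤ 16 / 64 := by gcongr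
      _ = 1 / 4 := by norm_num
  rw [← mul_div_assoc, mul_one, le_div_iff₀ (by positivity)]
  exact h4

theorem Data.line_near {x : ℝ} {n u : ℕ} {y : ℝ} (d : P.Data x n u y) :
    |(d.r : ℝ) / d.q - P.yL x u d.A d.B d.C| ≤ 1 / 16 * (1 / (P.R : ℝ) ^ (n + 1)) := by
  apply P.line_near d.hq1 d.hqq d.hx d.hline d.hA d.hB0
  refine d.hn1.trans ?_
  have hR1 := P.R_one
  have hRp := P.R_pos
  gcongr
  · norm_num

end Par

end Pool.Agent.Lib.MP_ed6e5c_nt
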