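import Pool.Agent.Lib.MP_ed6e5c_nt.ChooseX

set_option autoImplicit false

namespace Pool.Agent.Lib.MP_ed6e5c_nt

/-- The Cantor construction for two parameter sets. -/
theorem exists_y (P : Fin 2 → Par) (R : ℕ) (hR : ∀ t, (P t).R = R) (x : ℝ)
    (hF : ∀ t, (P t).F x) (K : ℕ) (hK : 0 < K) (hKk : ∀ t, 1 ≤ (K : ℝ) * (P t).k)
    (hbig : ∀ t, ((P t).g : ℝ) + 6 + 2 * K ≤ R / 16) :
    ∃ y : ℝ, ∀ t n u, y ∉ (P t).E x n u := by
  have hR64 : 64 ≤ R := by rw [← hR 0]; exact (P 0).hR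
  let α := Σ _ : Fin 2, ℕ
  let U : ℕ → Finset α := fun n => Finset.univ.sigma (fun t => (P t).U0 n)
  let E : ℕ → α → Set ℝ := fun n a => (P a.1).E x n a.2
  let w : ℕ → α → ℕ := fun n a => (a.2 - (P a.1).u1 n) / K
  have hUmem : ∀ n t u, (⟨t, u⟩ : α) ∈ U n ↔ u ∈ (P t).U0 n := by
    intro n t u
    constructor
    · intro h; exact (Finset.mem_sigma.mp h).2
    · intro h; exact Finset.mem_sigma.mpr ⟨Finset.mem_univ _, h⟩
  have hEU : ∀ n t u y, y ∈ (P t).E x n u → (⟨t, u⟩ : α) ∈ U n := by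
    rintro n t u y ⟨d⟩
    rw [hUmem]
    exact (P t).mem_U0 d
  have c1 : ∀ n, ∀ a ∈ U n, w n a ≤ n := by
    rintro n ⟨t, u⟩ ha
    rw [hUmem] at ha
    unfold Par.U0 at ha
    rw [Finset.mem_filter, Finset.mem_range] at ha
    have h1 : (u - (P t).u1 n) / K ≤ u - (P t).u1 n := Nat.div_le_self _ _
    have h2 : u - (P t).u1 n ≤ u := Nat.sub_le _ _
    exact h1.trans (h2.trans ha.1.le)
  have c2 : ∀ n, ∀ a ∈ U n, ∀ s : ℕ,
      (∀ m < n - w n a, ∀ b ∈ U m, Disjoint (J R (n - w n a) s) (E m b)) →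
      ∃ y0 : ℝ, ∀ y ∈ E n a, y ∈ J R (n - w n a) s →
        y0 - 1 / (R : ℝ) ^ (n + 1) ≤ y ∧ y ≤ y0 + 1 / (R : ℝ) ^ (n + 1) := by
    rintro n ⟨t, u⟩ ha s hs
    have hRt := hR t
    have hwn : (u - (P t).u1 n) / K ≤ n := c1 n ⟨t, u⟩ ha
    have h := (P t).class_lemma (hF t) (n := n) (u := u) (w := (u - (P t).u1 n) / K) (s := s) hwn
      ((P t).w_cond K (hKk t) n u) (by
        intro m hm u0
        rw [hRt, Set.disjoint_left]
        intro z hz hzE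
        have h1 := hs m hm ⟨t, u0⟩ (hEU m t u0 z hzE)
        exact Set.disjoint_left.mp h1 hz hzE)
    rw [hRt] at h
    exact h
  have c3 : ∀ n, ∑ a ∈ U n, (2 / (R : ℝ)) ^ (w n a) ≤ R / 8 := by
    intro n
    have h0 : ∑ a ∈ U n, (2 / (R : ℝ)) ^ (w n a) =
        ∑ t : Fin 2, ∑ u ∈ (P t).U0 n, (2 / (R : ℝ)) ^ ((u - (P t).u1 n) / K) :=
      Finset.sum_sigma _ _ _
    rw [h0]
    have h1 : ∀ t ∈ (Finset.univ : Finset (Fin 2)),
        ∑ u ∈ (P t).U0 n, (2 / (R : ℝ)) ^ ((u - (P t).u1 n) / K) ≤ R / 16 := by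
      intro t _
      have := (P t).sum_le K hK n
      rw [hR t] at this
      exact this.trans (hbig t)
    refine (Finset.sum_le_sum h1).trans ?_
    rw [Finset.sum_const, Finset.card_univ, Fintype.card_fin]
    simp only [nsmul_eq_mul]
    push_cast
    linarith
  obtain ⟨y, _, _, hy⟩ := cantor (R := R) (U := U) (E := E) (by omega) w c1 c2 c3
  refine ⟨y, ?_⟩
  intro t n u hyE
  exact hy n ⟨t, u⟩ (hEU n t u y hyE) hyE

theorem Par.good_of_notin (P : Par) {x y : ℝ} (hF : P.F x) (h : ∀ n u, y ∉ P.E x n u) {q : ℕ}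
    (hq : 0 < q) (hdiv : P.Du (Nat.log P.R q) ∣ q) {p : ℤ} (hx : |(q : ℝ) * x - p| ≤ P.cq P.j q)
    (r : ℤ) : P.cq P.k q < |(q : ℝ) * y - r| := by
  by_contra hcon
  push Not at hcon
  have hRnat : 1 < P.R := by have := P.hR; omega
  set u0 : ℕ := Nat.log P.R q with hu0'
  have hc1 : (P.R : ℝ) ^ u0 ≤ q := by
    have := Nat.pow_log_le_self P.R hq.ne'
    exact_mod_cast this
  have hc2 : (q : ℝ) < (P.R : ℝ) ^ (u0 + 1) := by
    have := Nat.lt_pow_succ_log_self hRnat q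
    exact_mod_cast this
  obtain ⟨q', hqq⟩ := hdiv
  obtain ⟨A0, B0, C0, hl0, hA0, hB0, hB00⟩ := P.exists_line (r := r) hF hc1 hc2 hqq hx
  have hBnat : ((B0.natAbs : ℕ) : ℝ) = |(B0 : ℝ)| := by rw [Nat.cast_natAbs, Int.cast_abs]
  have hBpos : 0 < B0.natAbs := Int.natAbs_pos.mpr hB00
  set H0 : ℕ := 8 * P.R ^ 2 * q * B0.natAbs with hH0
  have hH0pos : 0 < H0 := by
    have : 0 < P.R := by omega
    positivity
  set n0 : ℕ := Nat.log P.R H0 with hn0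
  have hH0r : (H0 : ℝ) = 8 * (P.R : ℝ) ^ 2 * q * |(B0 : ℝ)| := by
    rw [hH0]; push_cast; rw [Nat.cast_natAbs, Int.cast_abs]
  have hn1 : (P.R : ℝ) ^ n0 ≤ 8 * (P.R : ℝ) ^ 2 * q * |(B0 : ℝ)| := by
    rw [← hH0r]
    have := Nat.pow_log_le_self P.R hH0pos.ne'
    exact_mod_cast this
  have hn2 : 8 * (P.R : ℝ) ^ 2 * q * |(B0 : ℝ)| < (P.R : ℝ) ^ (n0 + 1) := by
    rw [← hH0r]
    have := Nat.lt_pow_succ_log_self hRnat H0
    exact_mod_cast this
  exact h n0 u0 ⟨⟨p, r, q, q', A0, B0, C0, hc1, hc2, hqq, hx, hcon, hl0, hA0, hB0, hB00, hn1, hn2⟩⟩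

section

variable (d : ℕ → ℕ)

/-- The products `D_n`. -/
def Dn (n : ℕ) : ℕ := ∏ m ∈ Finset.range n, d m

/-- Membership in `Bad_D(i,j,k)` in the form of the frozen statement. -/
def Good (i j k x y : ℝ) : Prop := ∃ c : ℝ, 0 < c ∧ ∀ q : ℕ, 0 < q →
      ((q : ℝ) * (if i = 0 then 0 else
          (sInf ((fun n : ℕ => (1 : ℝ) / ((∏ m ∈ Finset.range n, d m : ℕ) : ℝ)) ''
            {n : ℕ | (∏ m ∈ Finset.range n, d m) ∣ q})) ^ (1 / i)) > c ∨
       (q : ℝ) * (if j = 0 then 0 else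
          |(q : ℝ) * x - (round ((q : ℝ) * x) : ℝ)| ^ (1 / j)) > c ∨
       (q : ℝ) * (if k = 0 then 0 else
          |(q : ℝ) * y - (round ((q : ℝ) * y) : ℝ)| ^ (1 / k)) > c)

theorem Dn_zero : Dn d 0 = 1 := by simp [Dn]

theorem Dn_succ (n : ℕ) : Dn d (n + 1) = Dn d n * d n := by
  unfold Dn; rw [Finset.prod_range_succ]

theorem Dn_dvd {m n : ℕ} (h : m ≤ n) : Dn d m ∣ Dn d n := by
  unfold Dn
  exact Finset.prod_dvd_prod_of_subset _ _ _ (Finset.range_subset_range.mpr h)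

variable {d}

theorem Dn_ge (hd : ∀ n, 2 ≤ d n) (n : ℕ) : 2 ^ n ≤ Dn d n := by
  induction n with
  | zero => simp [Dn]
  | succ n ih => rw [Dn_succ, pow_succ]; exact Nat.mul_le_mul ih (hd n)

/-- if the first condition fails then a large `D_n` divides `q`. -/
theorem dvd_of_not (hd : ∀ n, 2 ≤ d n) {i c : ℝ} (hi : 0 < i) (hc : 0 < c) {q : ℕ} (hq : 0 < q)
    (h : ¬ ((q : ℝ) * (sInf ((fun n : ℕ => (1 : ℝ) / ((∏ m ∈ Finset.range n, d m : ℕ) : ℝ)) ''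
            {n : ℕ | (∏ m ∈ Finset.range n, d m) ∣ q})) ^ (1 / i) > c)) :
    ∃ n, Dn d n ∣ q ∧ ((q : ℝ) / c) ^ i ≤ Dn d n := by
  have hqr : (0 : ℝ) < q := by exact_mod_cast hq
  set S := (fun n : ℕ => (1 : ℝ) / ((∏ m ∈ Finset.range n, d m : ℕ) : ℝ)) ''
            {n : ℕ | (∏ m ∈ Finset.range n, d m) ∣ q} with hS
  have hfin : {n : ℕ | (∏ m ∈ Finset.range n, d m) ∣ q}.Finite := by
    apply (Set.finite_le_nat q).subset
    intro n hn
    have h1 : Dn d n ∣ q := hn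
    have h2 := Nat.le_of_dvd hq h1
    have h3 := Dn_ge hd n
    have h4 : n < 2 ^ n := Nat.lt_two_pow_self
    show n ≤ q
    omega
  have hne : S.Nonempty := by
    refine ⟨1, 0, ?_, ?_⟩
    · show (∏ m ∈ Finset.range 0, d m) ∣ q
      simp
    · simp
  have hmem : sInf S ∈ S := hne.csInf_mem (hfin.image _)
  obtain ⟨n, hn, hn2⟩ := hmem
  refine ⟨n, hn, ?_⟩
  have hDpos : (0 : ℝ) < Dn d n := by
    have := Dn_ge hd n
    have h5 : 0 < Dn d n := lt_of_lt_of_le (by positivity) this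
    exact_mod_cast h5
  have hn3 : sInf S = 1 / (Dn d n : ℝ) := by rw [← hn2]; rfl
  rw [hn3] at h
  push Not at h
  have h1 : (1 / (Dn d n : ℝ)) ^ (1 / i) ≤ c / q := by
    rw [le_div_iff₀ hqr]; linarith
  have h2 : ((1 / (Dn d n : ℝ)) ^ (1 / i)) ^ i ≤ (c / q) ^ i :=
    Real.rpow_le_rpow (by positivity) h1 hi.le
  rw [← Real.rpow_mul (by positivity), one_div_mul_cancel hi.ne', Real.rpow_one] at h2
  have h3 : (q / c : ℝ) ^ i = ((c / q) ^ i)⁻¹ := by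
    rw [← Real.inv_rpow (by positivity), inv_div]
  rw [h3]
  have h4 : 0 < 1 / (Dn d n : ℝ) := by positivity
  calc ((c / q) ^ i)⁻¹ ≤ (1 / (Dn d n : ℝ))⁻¹ := inv_anti₀ h4 h2
    _ = Dn d n := by rw [one_div, inv_inv]

theorem le_of_not {j c z : ℝ} (hj : 0 < j) (hc : 0 < c) (hz : 0 ≤ z) {q : ℕ} (hq : 0 < q)
    (h : ¬ ((q : ℝ) * z ^ (1 / j) > c)) : z ≤ ((q : ℝ) / c) ^ (-j) := by
  have hqr : (0 : ℝ) < q := by exact_mod_cast hq
  push Not at h
  have h1 : z ^ (1 / j) ≤ c / q := by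
    rw [le_div_iff₀ hqr]; linarith
  have h2 : (z ^ (1 / j)) ^ j ≤ (c / q) ^ j := Real.rpow_le_rpow (by positivity) h1 hj.le
  rw [← Real.rpow_mul hz, one_div_mul_cancel hj.ne', Real.rpow_one] at h2
  rw [Real.rpow_neg (by positivity), ← Real.inv_rpow (by positivity), inv_div]
  exact h2

/-- A parameter set attached to weights. -/
theorem exists_par (hd : ∀ n, 2 ≤ d n) {M : ℕ} (hM : ∀ n, d n ≤ M) {R g : ℕ} {i j k : ℝ}
    (hR : 64 ≤ R) (hMR : M ≤ R) (hi : 0 ≤ i) (hj : 0 ≤ j) (hk : 0 < k) (hijk : i + j + k = 1)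
    (hgk : 5 ≤ g * k) (hgk' : k = 1 ∨ 5 ≤ g * (1 - k)) :
    ∃ P : Par, P.R = R ∧ P.g = g ∧ P.i = i ∧ P.j = j ∧ P.k = k ∧
      ∀ u n : ℕ, (R : ℝ) ^ (i * ((u : ℝ) + g)) ≤ Dn d n → P.Du u ∣ Dn d n := by
  classical
  have hR1 : (1 : ℝ) ≤ R := by
    have : 1 ≤ R := by omega
    exact_mod_cast this
  have hex : ∀ u : ℕ, ∃ n, (R : ℝ) ^ (i * ((u : ℝ) + g)) ≤ Dn d n := by
    intro u
    obtain ⟨n, hn⟩ := exists_nat_ge ((R : ℝ) ^ (i * ((u : ℝ) + g)))
    refine ⟨n, hn.trans ?_⟩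
    have h1 := Dn_ge hd n
    have h2 : n < 2 ^ n := Nat.lt_two_pow_self
    have h3 : n ≤ Dn d n := by omega
    exact_mod_cast h3
  let m : ℕ → ℕ := fun u => Nat.find (hex u)
  have hm : ∀ u : ℕ, (R : ℝ) ^ (i * ((u : ℝ) + g)) ≤ Dn d (m u) := fun u => Nat.find_spec (hex u)
  have hm2 : ∀ u n : ℕ, (R : ℝ) ^ (i * ((u : ℝ) + g)) ≤ Dn d n → m u ≤ n := fun u n h =>
    Nat.find_min' (hex u) h
  refine ⟨⟨R, g, fun u => Dn d (m u), i, j, k, hR, hi, hj, hk, hijk, hgk, hgk', hm, ?_, ?_⟩,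
    rfl, rfl, rfl, rfl, rfl, ?_⟩
  · intro u
    have h1 : (1 : ℝ) ≤ (R : ℝ) ^ (i * ((u : ℝ) + g)) := Real.one_le_rpow hR1 (by positivity)
    rcases Nat.eq_zero_or_pos (m u) with h0 | h0
    · rw [h0, Dn_zero]
      push_cast
      nlinarith
    · obtain ⟨n, hn⟩ := Nat.exists_eq_succ_of_ne_zero h0.ne'
      have h2 : (Dn d n : ℝ) < (R : ℝ) ^ (i * ((u : ℝ) + g)) := by
        by_contra hcon
        push Not at hcon
        have := hm2 u n hcon
        omega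
      rw [hn, Nat.succ_eq_add_one, Dn_succ]
      push_cast
      have h3 : (d n : ℝ) ≤ R := by exact_mod_cast (hM n).trans hMR
      have h4 : (0 : ℝ) ≤ d n := by positivity
      calc (Dn d n : ℝ) * d n ≤ (R : ℝ) ^ (i * ((u : ℝ) + g)) * R := by gcongr
        _ = _ := by ring
  · intro u v huv
    apply Dn_dvd
    apply hm2
    refine le_trans ?_ (hm v)
    apply Real.rpow_le_rpow_of_exponent_le hR1
    have : (u : ℝ) ≤ v := by exact_mod_cast huv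
    gcongr
  · intro u n h
    exact Dn_dvd d (hm2 u n h)

/-- Main theorem when both `k` are positive. -/
theorem main_pos (hd : ∀ n, 2 ≤ d n) (hM : ∃ M : ℕ, ∀ n, d n ≤ M) (i j k : Fin 2 → ℝ)
    (h : ∀ t, 0 ≤ i t ∧ 0 ≤ j t ∧ 0 < k t ∧ i t + j t + k t = 1) :
    ∃ x y : ℝ, ∀ t, Good d (i t) (j t) (k t) x y := by
  classical
  obtain ⟨M, hM⟩ := hM
  -- choice of g
  have hg : ∀ t, ∃ g0 : ℕ, ∀ g : ℕ, g0 ≤ g → 5 ≤ g * k t ∧ (k t = 1 ∨ 5 ≤ g * (1 - k t)) := by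
    intro t
    obtain ⟨hi, hj, hk, hs⟩ := h t
    have hk1 : k t ≤ 1 := by linarith
    obtain ⟨a, ha⟩ := exists_nat_ge (5 / k t)
    rcases hk1.lt_or_eq with hlt | heq
    · obtain ⟨b, hb⟩ := exists_nat_ge (5 / (1 - k t))
      refine ⟨max a b, ?_⟩
      intro g hg
      have h1 : (a : ℝ) ≤ g := by exact_mod_cast (le_max_left a b).trans hg
      have h2 : (b : ℝ) ≤ g := by exact_mod_cast (le_max_right a b).trans hg
      constructor
      · have := ha.trans h1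
        rwa [div_le_iff₀ hk] at this
      · right
        have := hb.trans h2
        rwa [div_le_iff₀ (by linarith)] at this
    · refine ⟨a, ?_⟩
      intro g hg
      have h1 : (a : ℝ) ≤ g := by exact_mod_cast hg
      constructor
      · have := ha.trans h1
        rwa [div_le_iff₀ hk] at this
      · left; exact heq
  choose g0 hg0 using hg
  set g : ℕ := max (g0 0) (g0 1) with hgdef
  have hg0g : ∀ t, g0 t ≤ g := by
    intro t; fin_cases t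
    · exact le_max_left _ _
    · exact le_max_right _ _
  -- choice of K
  have hKex : ∀ t, ∃ K0 : ℕ, 1 ≤ (K0 : ℝ) * k t := by
    intro t
    obtain ⟨a, ha⟩ := exists_nat_ge (1 / k t)
    refine ⟨a, ?_⟩
    rwa [div_le_iff₀ (h t).2.2.1] at ha
  choose K0 hK0 using hKex
  set K : ℕ := max (K0 0) (K0 1) + 1 with hKdef
  have hKk : ∀ t, 1 ≤ (K : ℝ) * k t := by
    intro t
    have h1 : K0 t ≤ K := by
      rw [hKdef]
      fin_cases t
      · exact (le_max_left _ _).trans (Nat.le_succ _)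
      · exact (le_max_right _ _).trans (Nat.le_succ _)
    have h2 : (K0 t : ℝ) ≤ K := by exact_mod_cast h1
    have h3 := hK0 t
    have h4 := (h t).2.2.1
    nlinarith
  have hKpos : 0 < K := by omega
  -- choice of R
  obtain ⟨T, hT⟩ : ∃ T : ℕ, T = 2 ^ K := ⟨_, rfl⟩
  set R : ℕ := 64 + M + 16 * (g + 6 + 2 * K) + T with hRdef
  have hR64 : 64 ≤ R := by rw [hRdef]; omega
  have hRM : M ≤ R := by rw [hRdef]; omega
  have hRb : ((g : ℝ) + 6 + 2 * K) ≤ R / 16 := by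
    have : 16 * (g + 6 + 2 * K) ≤ R := by rw [hRdef]; omega
    have h2 : (16 : ℝ) * (g + 6 + 2 * K) ≤ R := by exact_mod_cast this
    linarith
  have hR2 : ∀ t, 2 ≤ (R : ℝ) ^ (k t) := by
    intro t
    have h1 : (2 : ℝ) ^ (K : ℝ) ≤ R := by
      rw [Real.rpow_natCast]
      have : 2 ^ K ≤ R := by rw [hRdef, ← hT]; omega
      exact_mod_cast this
    have h4 := (h t).2.2.1
    calc (2 : ℝ) = 2 ^ (1 : ℝ) := (Real.rpow_one _).symm
      _ ≤ 2 ^ ((K : ℝ) * k t) := Real.rpow_le_rpow_of_exponent_le (by norm_num) (hKk t)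
      _ = (2 ^ (K : ℝ)) ^ (k t) := Real.rpow_mul (by norm_num) _ _
      _ ≤ (R : ℝ) ^ (k t) := Real.rpow_le_rpow (by positivity) h1 h4.le
  -- parameter sets
  have hP : ∀ t, ∃ P : Par, P.R = R ∧ P.g = g ∧ P.i = i t ∧ P.j = j t ∧ P.k = k t ∧
      ∀ u n : ℕ, (R : ℝ) ^ (i t * ((u : ℝ) + g)) ≤ Dn d n → P.Du u ∣ Dn d n := by
    intro t
    obtain ⟨hi, hj, hk, hs⟩ := h t
    exact exists_par hd hM hR64 hRM hi hj hk hs (hg0 t g (hg0g t)).1 (hg0 t g (hg0g t)).2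
  choose P hPR hPg hPi hPj hPk hPD using hP
  obtain ⟨x, hF⟩ := exists_x P (by intro t; rw [hPR t, hPk t]; exact hR2 t)
  obtain ⟨y, hy⟩ := exists_y P R hPR x hF K hKpos (by intro t; rw [hPk t]; exact hKk t)
    (by intro t; rw [hPg t]; exact hRb)
  have hRpos : (0 : ℝ) < R := by
    have : 0 < R := by omega
    exact_mod_cast this
  refine ⟨x, y, ?_⟩
  intro t
  obtain ⟨hi, hj, hk, hs⟩ := h t
  refine ⟨((R : ℝ) ^ g)⁻¹, by positivity, ?_⟩
  intro q hq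
  by_contra hcon
  push Not at hcon
  obtain ⟨hc1, hc2, hc3⟩ := hcon
  have hqr : (0 : ℝ) < q := by exact_mod_cast hq
  have hcpos : 0 < ((R : ℝ) ^ g)⁻¹ := by positivity
  have hcqe : ∀ e, (P t).cq e q = ((q : ℝ) / ((R : ℝ) ^ g)⁻¹) ^ (-e) := by
    intro e
    unfold Par.cq
    rw [hPR t, hPg t, div_inv_eq_mul, mul_comm]
  have hRnat : 1 < (P t).R := by rw [hPR t]; omega
  -- divisibility
  have hdiv : (P t).Du (Nat.log (P t).R q) ∣ q := by
    rcases hi.eq_or_lt with h0 | h0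
    · have h1 := hPD t (Nat.log (P t).R q) 0 (by rw [← h0, zero_mul, Real.rpow_zero, Dn_zero]; simp)
      rw [Dn_zero] at h1
      exact h1.trans (one_dvd q)
    · rw [if_neg h0.ne'] at hc1
      obtain ⟨n, hn1, hn2⟩ := dvd_of_not hd h0 hcpos hq (not_lt.mpr hc1)
      refine (hPD t _ n ?_).trans hn1
      refine le_trans ?_ hn2
      have h2 : (R : ℝ) ^ (Nat.log (P t).R q) ≤ q := by
        have := Nat.pow_log_le_self (P t).R hq.ne'
        rw [hPR t] at this ⊢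
        exact_mod_cast this
      rw [mul_comm, Real.rpow_mul hRpos.le, Real.rpow_add hRpos, Real.rpow_natCast,
        Real.rpow_natCast, div_inv_eq_mul]
      apply Real.rpow_le_rpow (by positivity) _ hi
      gcongr
  have hxb : |(q : ℝ) * x - (round ((q : ℝ) * x) : ℤ)| ≤ (P t).cq (P t).j q := by
    rw [hcqe, hPj t]
    rcases hj.eq_or_lt with h0 | h0
    · rw [← h0, neg_zero, Real.rpow_zero]
      have := abs_sub_round ((q : ℝ) * x)
      linarith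
    · rw [if_neg h0.ne'] at hc2
      exact le_of_not h0 hcpos (abs_nonneg _) hq (not_lt.mpr hc2)
  have hyb : |(q : ℝ) * y - (round ((q : ℝ) * y) : ℤ)| ≤ (P t).cq (P t).k q := by
    rw [hcqe, hPk t]
    rw [if_neg hk.ne'] at hc3
    exact le_of_not hk hcpos (abs_nonneg _) hq (not_lt.mpr hc3)
  have := (P t).good_of_notin (hF t) (hy t) hq hdiv hxb (round ((q : ℝ) * y))
  linarith

end

end Pool.Agent.Lib.MP_ed6e5c_nt
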